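import Pool.Agent.J4H69.K2.Base

set_option autoImplicit false

/-!
Project K2: the assembly.
-/

namespace Pool.Agent.J4H69.K2

open Filter Topology Set Metric
open scoped Polynomial
open Pool.Agent.J4H69.K1

/-- the chain rule: both partial derivatives of a minimal relation are not relations -/
lemma pderiv_notMem {D : Set ℂ} {f : Fin 3 → ℂ → ℂ} (hD : IsOpen D) (hp : IsPreconnected D)
    (hf : ∀ i, AnalyticOnNhd ℂ (f i) D) {a b : Fin 3} {Q : Pol} (hab : a ≠ b)
    (ha : ∃ t ∈ D, deriv (f a) t ≠ 0) (hQI : Q ∈ rel D f)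
    (hQS : Q ∈ MvPolynomial.supported ℂ ({Sum.inl a, Sum.inl b} : Set (Fin 3 ⊕ Fin 3)))
    (hQa : MvPolynomial.pderiv (Sum.inl a) Q ∉ rel D f) : MvPolynomial.pderiv (Sum.inl b) Q ∉ rel D f := by
  intro hQb
  have key : ∀ t ∈ D, MvPolynomial.eval (env rg fun i => f i t) (MvPolynomial.pderiv (Sum.inl a) Q) *
      deriv (f a) t = 0 := by
    intro t ht
    have h0 : HasDerivAt (fun s : ℂ => t + s) 1 0 := (hasDerivAt_id 0).const_add t
    have hγ : HasDerivAt (fun s : ℂ => fun i => f i (t + s)) (fun i => deriv (f i) t) 0 := by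
      rw [hasDerivAt_pi]
      intro i
      have h1 : HasDerivAt (f i) (deriv (f i) t) (t + 0) := by
        rw [add_zero]
        exact (hf i t ht).differentiableAt.hasDerivAt
      have h2 := h1.comp 0 h0
      rw [mul_one] at h2
      exact h2
    have h2 := Pool.Agent.J4H17.K1.chain (g := rg) rg_diff hγ Q
    have h3 : HasDerivAt (fun s : ℂ => MvPolynomial.eval (env rg fun i => f i (t + s)) Q) 0 0 := by
      refine (hasDerivAt_const (0 : ℂ) (0 : ℂ)).congr_of_eventuallyEq ?_
      have h4 : Tendsto (fun s : ℂ => t + s) (𝓝 0) (𝓝 t) := by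
        have := h0.continuousAt.tendsto
        rwa [add_zero] at this
      filter_upwards [h4.eventually (hD.mem_nhds ht)] with s hs
      exact hQI _ hs
    have h4 := h2.unique h3
    rw [Finset.sum_eq_single a] at h4
    · have h5 : MvPolynomial.pderiv (Sum.inr a) Q = 0 := pderiv_zero hQS (by simp)
      simp only [dd, h5, map_zero, zero_mul, add_zero] at h4
      exact h4
    · intro i _ hi
      have h5 : MvPolynomial.pderiv (Sum.inr i) Q = 0 := pderiv_zero hQS (by simp)
      have h6 : MvPolynomial.eval (env rg fun i => f i t) (MvPolynomial.pderiv (Sum.inl i) Q) = 0 := by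
        by_cases hib : i = b
        · rw [hib]
          exact hQb t ht
        · have h7 : MvPolynomial.pderiv (Sum.inl i) Q = 0 := pderiv_zero hQS (by simp [hi, hib])
          rw [h7, map_zero]
      simp only [dd, h5, map_zero, zero_mul, add_zero, h6]
    · intro h
      exact absurd (Finset.mem_univ a) h
  rcases mul_zero_fun hD hp (env_an hf _) (fun t ht => (hf a t ht).deriv) key with h | h
  · exact hQa h
  · obtain ⟨t, ht, h1⟩ := ha
    exact h1 (h t ht)

/-- the functions `rg f_i` do not vanish identically -/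
lemma y_notMem' {D : Set ℂ} {f : Fin 3 → ℂ → ℂ} (hD : IsOpen D) (hf : ∀ i, AnalyticOnNhd ℂ (f i) D) {i : Fin 3}
    (hi : ∃ t ∈ D, deriv (f i) t ≠ 0) : (MvPolynomial.X (Sum.inr i) : Pol) ∉ rel D f := by
  intro h
  obtain ⟨t₀, ht₀, hder⟩ := hi
  have h1 : HasStrictDerivAt (f i) (deriv (f i) t₀) t₀ := (hf i t₀ ht₀).hasStrictDerivAt
  have h2 : ∀ᶠ t in 𝓝 t₀, rg (f i t) = 0 := by
    filter_upwards [hD.mem_nhds ht₀] with t ht
    have := h t ht
    rw [MvPolynomial.eval_X] at this
    exact this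
  have h3 : ∀ᶠ w in 𝓝 (f i t₀), rg w = 0 := by
    rw [← h1.map_nhds_eq hder]
    exact h2
  have h4 : rg = fun _ => 0 := by
    refine AnalyticOnNhd.eq_of_eventuallyEq (z₀ := f i t₀) (fun w _ => rg_diff.analyticAt w)
      (fun w _ => analyticAt_const) h3
  have h5 := congrFun h4 1
  simp [rg] at h5

lemma range2 (p q : Fin 3 ⊕ Fin 3) : range (![p, q] : Fin 2 → Fin 3 ⊕ Fin 3) = {p, q} := by
  ext x
  simp [Matrix.range_cons, Matrix.range_empty, or_comm]

lemma range3 (p q r : Fin 3 ⊕ Fin 3) : range (![p, q, r] : Fin 3 → Fin 3 ⊕ Fin 3) = {p, q, r} := by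
  ext x
  simp [Matrix.range_cons, Matrix.range_empty, or_comm, or_left_comm, or_assoc]

/-- if `v` is algebraic over all `z_i`, it is algebraic over two of them -/
lemma not_trs_pair {I : Ideal Pol} (hI : I.IsPrime) {a b c : Fin 3} (hab : a ≠ b) (hac : a ≠ c) (hbc : b ≠ c)
    (hb : IsAlgebraic (Algebra.adjoin ℂ (vq I '' range (![Sum.inl a] : Fin 1 → Fin 3 ⊕ Fin 3))) (vq I (Sum.inl b)))
    {v : Fin 3 ⊕ Fin 3} (hv : ¬ Trs I (Sum.inl : Fin 3 → Fin 3 ⊕ Fin 3) v) :
    ¬ Trs I (![Sum.inl a, Sum.inl c] : Fin 2 → Fin 3 ⊕ Fin 3) v := by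
  apply not_trs_of_alg
  · intro x y hxy
    fin_cases x <;> fin_cases y <;> simp_all
  · refine alg_trans hI (alg_of_not_trs hv) ?_
    rintro w ⟨i, rfl⟩ hi
    rw [range2] at hi ⊢
    rcases range_inl hab hac hbc i with rfl | rfl | rfl
    · exact absurd (Or.inl rfl) hi
    · refine alg_trans hI hb ?_
      rintro w ⟨l, rfl⟩ hl
      fin_cases l
      exact absurd (Or.inl rfl) hl
    · exact absurd (Or.inr rfl) hi

/-- the dependent case -/
theorem k2_false (hLOC : S_LOC) (hDEP : S_DEP) (hTRD : S_TRD) (hMIN : S_MIN) (hJAC : S_JAC) (hFIN1 : S_FIN1)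
    (hFIN3A : S_FIN3A) (hFIN3 : S_FIN3)
    {D : Set ℂ} {f : Fin 3 → ℂ → ℂ} (hD : IsOpen D) (hp : IsPreconnected D) (hf : ∀ i, AnalyticOnNhd ℂ (f i) D)
    (hnc : ∀ i, ∃ t ∈ D, deriv (f i) t ≠ 0) {a b c : Fin 3} (hab : a ≠ b) (hac : a ≠ c) (hbc : b ≠ c)
    (hH : ∀ p q : ℚ, ∃ t ∈ D, f b t ≠ p * f a t + q)
    (hno : ∀ e : Fin 4 → Fin 3 ⊕ Fin 3, ¬ Indep (rel D f) e)
    (h1 : ¬ Indep (rel D f) (![Sum.inl a, Sum.inl b] : Fin 2 → Fin 3 ⊕ Fin 3))
    (h2 : Indep (rel D f) (![Sum.inl a, Sum.inl c] : Fin 2 → Fin 3 ⊕ Fin 3))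
    (h3 : Indep (rel D f) (![Sum.inl a, Sum.inr a, Sum.inr b] : Fin 3 → Fin 3 ⊕ Fin 3)) : False := by
  obtain ⟨t₀, ht₀, hder⟩ := hnc a
  have hI := rel_prime hD hp ⟨t₀, ht₀⟩ hf
  have ia := indep_one hf hD (hnc a)
  have ib := indep_one hf hD (hnc b)
  have ic := indep_one hf hD (hnc c)
  have h2b : Indep (rel D f) (![Sum.inl b, Sum.inl c] : Fin 2 → Fin 3 ⊕ Fin 3) :=
    indep_exchange hI ib ic h1 h2
  -- the irreducible relation
  obtain ⟨Q, hQp, hQI, hQ0, hQ1⟩ := exists_irr hI h1 ia ib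
  have hQf : ∀ t ∈ D, MvPolynomial.eval ![f a t, f b t] Q = 0 := by
    intro t ht
    have h4 := rename_mem_rel.1 hQI t ht
    rw [env_pair] at h4
    exact h4
  have hline : ∀ p q : ℚ, ∃ x : ℂ, MvPolynomial.eval ![x, p * x + q] Q ≠ 0 := by
    intro p q
    by_contra hcon
    push Not at hcon
    obtain ⟨t, ht, h4⟩ := hH p q
    exact h4 (line_dvd hQp hcon (hQf t ht))
  obtain ⟨T, hT, hTI, hTf⟩ := exists_T hD hf ht₀ hder
  -- the coordinate `z_a`
  obtain ⟨hA1, hN1⟩ := hTRD _ hI 3 hno _ h3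
  have hLa : ∃ w₀, Loc T a w₀ := by
    obtain ⟨U, hU, hUne, hfin⟩ := hFIN1 T _ hTI a b c hab hac hbc Q hQp.irreducible hQI hQ0 hQ1 hline hA1
    obtain ⟨w₀, -, h⟩ := hLOC 3 T a U hT hU hUne
      (fun c' hc' x hx => (Set.Infinite.of_accPt hx) (hfin c' hc')) ∅ countable_empty
      (fun c' hc' _ => hfin c' hc')
    exact ⟨w₀, h⟩
  -- the coordinate `z_c`
  have hLc : ∃ s₀, Loc T c s₀ := by
    by_cases hTr : Trs (rel D f) (Sum.inl : Fin 3 → Fin 3 ⊕ Fin 3) (Sum.inr c)
    · -- second case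
      have hz := indep_zzy (pair_swap h2) hTr
      have hz' := indep_zzy (pair_swap h2b) hTr
      obtain ⟨hA, hN⟩ := hTRD _ hI 3 hno _ hz
      obtain ⟨hA', -⟩ := hTRD _ hI 3 hno _ hz'
      -- Q
      obtain ⟨R, hRI, hRS, hRd⟩ : ∃ R ∈ rel D f, R ∈ MvPolynomial.supported ℂ
          ({Sum.inl a, Sum.inl b} : Set (Fin 3 ⊕ Fin 3)) ∧
          MvPolynomial.pderiv (Sum.inl a) R ∉ rel D f := by
        have e1 : MvPolynomial.finSuccEquiv ℂ 1 Q ≠ 0 := fun h =>
          hQp.ne_zero ((map_eq_zero_iff _ (MvPolynomial.finSuccEquiv ℂ 1).injective).1 h)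
        obtain ⟨R, hR1, hR2, hR3⟩ := min_rel hMIN hI ib (v := Sum.inl a) (by
          rintro ⟨l, hl⟩
          fin_cases l
          exact hab (Sum.inl_injective hl).symm) e1 (by
          rw [← rename_cons]
          exact hQI)
        refine ⟨R, hR1, ?_, hR3⟩
        have e2 : (insert (Sum.inl a) (range (![Sum.inl b] : Fin 1 → Fin 3 ⊕ Fin 3)) : Set (Fin 3 ⊕ Fin 3)) =
            {Sum.inl a, Sum.inl b} := by
          ext x
          simp [Matrix.range_cons, Matrix.range_empty]
        rw [← e2]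
        exact hR2
      have hRd' := pderiv_notMem hD hp hf hab (hnc a) hRI hRS hRd
      -- P and P'
      obtain ⟨E₁, hE₁0, hE₁⟩ := hA (MvPolynomial.X (Sum.inr a))
      obtain ⟨P, hPI, hPS, hPd⟩ := min_rel hMIN hI hz (v := Sum.inr a) (by
        rintro ⟨l, hl⟩
        fin_cases l
        · exact absurd hl (by simp)
        · exact absurd hl (by simp)
        · exact hac (Sum.inr_injective hl).symm) hE₁0 hE₁
      obtain ⟨E₂, hE₂0, hE₂⟩ := hA (MvPolynomial.X (Sum.inr b))
      obtain ⟨P', hPI', hPS', hPd'⟩ := min_rel hMIN hI hz (v := Sum.inr b) (by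
        rintro ⟨l, hl⟩
        fin_cases l
        · exact absurd hl (by simp)
        · exact absurd hl (by simp)
        · exact hbc (Sum.inr_injective hl).symm) hE₂0 hE₂
      rw [range3] at hPS hPS'
      have hJ := hJAC _ hI c a b hac.symm hbc.symm hab h3 hA1 P P' hPI hPI'
        (MvPolynomial.supported_mono (by
          rintro x (rfl | rfl | rfl | rfl) <;> simp) hPS)
        (MvPolynomial.supported_mono (by
          rintro x (rfl | rfl | rfl | rfl) <;> simp) hPS') hPd hPd'
      -- the irreducible polynomial in three variables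
      have hinj : Function.Injective (![a, b] : Fin 2 → Fin 3) := by
        intro x y hxy
        fin_cases x <;> fin_cases y <;> simp_all
      have hQ₀ : Prime (MvPolynomial.rename (![a, b] : Fin 2 → Fin 3) Q) := prime_rename hinj hQp
      have hQ₀I : MvPolynomial.rename Sum.inl (MvPolynomial.rename (![a, b] : Fin 2 → Fin 3) Q) ∈ rel D f := by
        rw [MvPolynomial.rename_rename]
        have e : (Sum.inl : Fin 3 → Fin 3 ⊕ Fin 3) ∘ ![a, b] = ![Sum.inl a, Sum.inl b] := by
          funext l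
          fin_cases l <;> rfl
        rw [e]
        exact hQI
      have hdeg : ∀ l : Fin 2, (MvPolynomial.rename (![a, b] : Fin 2 → Fin 3) Q).degreeOf (![a, b] l) =
          Q.degreeOf l := fun l => MvPolynomial.degreeOf_rename_of_injective hinj l
      obtain ⟨U, hU, hUne, hacc, C₁, hC₁, hfin⟩ := hFIN3 T _ hT hI hTI c a b hac.symm hbc.symm hab hz hA hA' hN
        (MvPolynomial.rename (![a, b] : Fin 2 → Fin 3) Q) hQ₀.irreducible hQ₀I
        (by
          classical
          by_contra hcon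
          rw [← Ne, ← MvPolynomial.mem_vars_iff_degreeOf_ne_zero] at hcon
          have h4 := MvPolynomial.vars_rename _ _ hcon
          obtain ⟨l, -, hl⟩ := Finset.mem_image.1 h4
          fin_cases l
          · exact hac hl
          · exact hbc hl)
        (by
          have := hdeg 0
          rw [← this] at hQ0
          exact hQ0)
        (by
          have := hdeg 1
          rw [← this] at hQ1
          exact hQ1)
        (by
          intro m z
          obtain ⟨x, hx⟩ := hline 1 m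
          refine ⟨x, ?_⟩
          rw [MvPolynomial.eval_rename]
          have e : (Function.update (Function.update z a x) b (x + m)) ∘ (![a, b] : Fin 2 → Fin 3) =
              ![x, x + m] := by
            funext l
            fin_cases l
            · simp [hab]
            · simp
          rw [e]
          simpa using hx)
        R P P' hRI hPI hPI'
        (pderiv_zero hRS (by simp [hac.symm, hbc.symm]))
        (fun l => pderiv_zero hRS (by simp))
        (pderiv_zero hPS (by simp [hbc, hab.symm]))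
        (pderiv_zero hPS (by simp [hbc, hab.symm]))
        (pderiv_zero hPS' (by simp [hbc, hab.symm]))
        (pderiv_zero hPS' (by simp [hac, hab]))
        hRd hRd' hPd hPd' (y_notMem' hD hf (hnc b)) hJ
      obtain ⟨w₀, -, h⟩ := hLOC 3 T c U hT hU hUne hacc C₁ hC₁ hfin
      exact ⟨w₀, h⟩
    · -- first case
      have halg : IsAlgebraic (Algebra.adjoin ℂ (vq (rel D f) '' range (![Sum.inl a] : Fin 1 → Fin 3 ⊕ Fin 3)))
          (vq (rel D f) (Sum.inl b)) := alg_of_pair (fun h => h1 (pair_swap h)) ia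
      have hnt := not_trs_pair hI hab hac hbc halg hTr
      have hni : ¬ Indep (rel D f) (![Sum.inl a, Sum.inl c, Sum.inr c] : Fin 3 → Fin 3 ⊕ Fin 3) := by
        intro h
        apply hnt
        have h4 := indep_comp h (g := (finRotate 3).symm) (finRotate 3).symm.injective
        have e : (![Sum.inl a, Sum.inl c, Sum.inr c] : Fin 3 → Fin 3 ⊕ Fin 3) ∘ (finRotate 3).symm =
            Fin.cons (Sum.inr c) ![Sum.inl a, Sum.inl c] := by
          funext l
          fin_cases l <;> rfl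
        rw [e] at h4
        exact trs_of_cons h4
      unfold Indep at hni
      push Not at hni
      obtain ⟨R, hRI, hR0⟩ := hni
      obtain ⟨U, hU, hUne, hfin⟩ := hFIN3A T _ hTI a b c hab hac hbc Q hQp.irreducible hQI hQ0 hQ1 R hR0 hRI
      obtain ⟨w₀, -, h⟩ := hLOC 3 T c U hT hU hUne
        (fun c' hc' x hx => (Set.Infinite.of_accPt hx) (hfin c' hc')) ∅ countable_empty
        (fun c' hc' _ => hfin c' hc')
      exact ⟨w₀, h⟩
  -- the end
  obtain ⟨w₀, hw₀⟩ := hLa
  obtain ⟨s₀, hs₀⟩ := hLc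
  have hQ3 : MvPolynomial.rename (![a, b] : Fin 2 → Fin 3) Q ≠ 0 := by
    intro h
    apply hQp.ne_zero
    refine (map_eq_zero_iff _ (MvPolynomial.rename_injective (![a, b] : Fin 2 → Fin 3) ?_)).1 h
    intro x y hxy
    fin_cases x <;> fin_cases y <;> simp_all
  obtain ⟨E, hE0, hE⟩ := relE (i := b) (j := a) (k := c) hab.symm hbc hac hQ3
  obtain ⟨P₂, hP₂, hz⟩ := hDEP T a c b hac hab hbc.symm hT w₀ s₀ hw₀ hs₀ E hE0 (by
    intro z hz
    have h4 : MvPolynomial.eval (env rg z)
        (MvPolynomial.rename Sum.inl (MvPolynomial.rename (![a, b] : Fin 2 → Fin 3) Q)) = 0 := by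
      apply hTI z hz
      rw [MvPolynomial.rename_rename]
      have e : (Sum.inl : Fin 3 → Fin 3 ⊕ Fin 3) ∘ ![a, b] = ![Sum.inl a, Sum.inl b] := by
        funext l
        fin_cases l <;> rfl
      rw [e]
      exact hQI
    rw [← hE, eval_map_rn, env_pair] at h4
    exact h4)
  apply hP₂
  apply h2
  have h5 : ∀ᶠ t in 𝓝 t₀, MvPolynomial.eval (env rg fun i => f i t)
      (MvPolynomial.rename (![Sum.inl a, Sum.inl c] : Fin 2 → Fin 3 ⊕ Fin 3) P₂) = 0 := by
    filter_upwards [hTf] with t ht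
    rw [MvPolynomial.eval_rename]
    have h6 := hz _ ht
    have e := env_pair (fun i => f i t) a c
    have e' : (env rg fun i => f i t) ∘ (![Sum.inl a, Sum.inl c] : Fin 2 → Fin 3 ⊕ Fin 3) =
        ![f a t, f c t] := e
    rw [e']
    exact h6
  intro t ht
  exact (env_an hf _).eqOn_zero_of_preconnected_of_eventuallyEq_zero hp ht₀ h5 ht

end Pool.Agent.J4H69.K2
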