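import Pool.Agent.J4H69.K1.Stm

set_option autoImplicit false

/-!
# Project K2 (helper69), MP_26ad15_nt: the complete Ax–Schanuel inequality for Γ and three functions

Goal: `D ⊆ ℂ^N` open, connected, `f_1, f_2, f_3` analytic on `D`, not constant, `f_i ∉ ℚ f_j + ℚ` (`i ≠ j`)
⇒ `trdeg ℂ(f, Γ(f)) ≥ 3 + rank`. Exact statements of the jobs; write theorem `t_X : S_X` (or `S_A → S_B → S_X` where said).
All definitions (`rg`, `Pol`, `env`, `dd`, `Good`, `Loc`, `Indep`, `AlgOver`, `NdOver`) are those of K1/Stm.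
-/

namespace Pool.Agent.J4H69.K2

open Filter Topology Set Metric
open Pool.Agent.J4H69.AX (HasDisc HasPiece)
open Pool.Agent.J4H69.K1

/-! ## Analysis of Γ -/

/-- JOB LEFT2 (sharper form of LEFT). PROOF. `rg x = sin(πx) Γ(1-x)/π` and `|Γ(1-x)| ≥ |x|^M` for all `M`, so `sin πx` is tiny:
`x = -m + ε`, `m` a natural number, `|ε| ≤ |x|^(-N)` (`|sin π(k+ε)| ≥ 2|ε|` for `|Re ε| ≤ 1/2`). `rg'(-m) = ± m!`; `|rg| ≤ C m^3 m!` on the
disc `|z + m| ≤ 2`, so `|rg''| ≤ C m^3 m!` near `-m` and `|rg' x ∓ m!| ≤ C m^3 m! |ε| ≤ m!/2`. (Or: `rg' x = cos(πx) Γ(1-x) - rg x ψ(1-x)`.) -/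
def S_LEFT2 : Prop := ∀ c N : ℕ, ∃ R : ℝ, ∀ x : ℂ, R ≤ ‖x‖ → 3 * Real.pi / 4 < |Complex.arg x| →
  ‖rg x‖ ≤ ‖x‖ ^ c → ∃ m : ℕ, ‖x + m‖ * ‖x‖ ^ N ≤ 1 ∧ (m.factorial : ℝ) ≤ 2 * ‖deriv rg x‖ ∧
    ‖deriv rg x‖ ≤ 2 * (m.factorial : ℝ)

/-- JOB MIS2 (theorem `t_MIS2 : S_PSI → S_LEFT → S_LEFT2 → S_CL → S_PC → S_DOM → S_MIS2`), a variant of MIS.
Write `β_j = β(x_j, w_j, rg x_j, rg w_j)` etc. PROOF. Suppose the conclusion is false: never `β_j = γ_j = 0`; for each integer `m`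
eventually `w_j ≠ x_j + m`; for each rational `v > 0` eventually `β_j rg x_j + v γ_j rg w_j ≠ 0`. Take an ultrafilter `u ≤ atTop`;
`|w| ≍ |x|^v`, `v > 0` rational. Types L, S as in MIS.
(L,L): `(β rg x + v γ rg w) Λ + (β rg x a_N + γ rg w b_N - δ) = O(|x|^(-N+c'))`, DOM with `d = 1`, contradiction.
(S,L): if `β ≠ 0`: `|β rg' x| ≥ |x|^N` for all `N`, the rest is `≤ |x|^c'`, contradiction; if `β = 0` (`u`-eventually) then `γ ≠ 0` and
`γ rg w (v Λ + b_N) - δ = O(|x|^(-N+c'))`, `v γ rg w ≠ 0`, DOM with `d = 1`, contradiction. (L,S): the same.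
(S,S): if `β = 0` then `γ ≠ 0` and `|γ rg' w| ≥ |x|^N`, contradiction; the same if `γ = 0`. If both are nonzero then
`|x|^(-r) ≤ |rg' w| / |rg' x| ≤ |x|^r` for some `r`; by LEFT2 `x = -m + ε`, `w = -m' + ε'`, so `m'! / m!` is between `|x|^(-r-1)` and
`|x|^(r+1)`, so `|m' - m|` is bounded (`m'! / m! ≥ m^(m'-m)` if `m' ≥ m`, etc.), so `m - m' = h` is constant `u`-eventually, and
`w - x - h = ε' - ε` is smaller than all powers of `|x|`, but it is in Alg, so it is `0` `u`-eventually (PC): `w = x + h` for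
`u`-many `j`, so frequently. Contradiction. -/
def S_MIS2 : Prop := ∀ (x w : ℕ → ℂ), Tendsto (fun j => ‖x j‖) atTop atTop → Tendsto (fun j => ‖w j‖) atTop atTop →
  ∀ E₁ E₂ E₃ : Polynomial (Polynomial ℂ), E₁ ≠ 0 → E₂ ≠ 0 → E₃ ≠ 0 →
  (∀ j, E₁.evalEval (x j) (w j) = 0) → (∀ j, E₂.evalEval (x j) (rg (x j)) = 0) →
  (∀ j, E₃.evalEval (x j) (rg (w j)) = 0) →
  ∀ β γ δ : MvPolynomial (Fin 4) ℂ,
  (∀ j, MvPolynomial.eval ![x j, w j, rg (x j), rg (w j)] β * deriv rg (x j) +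
      MvPolynomial.eval ![x j, w j, rg (x j), rg (w j)] γ * deriv rg (w j) +
      MvPolynomial.eval ![x j, w j, rg (x j), rg (w j)] δ = 0) →
  (∃ j, MvPolynomial.eval ![x j, w j, rg (x j), rg (w j)] β = 0 ∧
      MvPolynomial.eval ![x j, w j, rg (x j), rg (w j)] γ = 0) ∨
  (∃ m : ℤ, ∃ᶠ j in atTop, w j = x j + m) ∨
  (∃ v : ℚ, 0 < v ∧ ∃ᶠ j in atTop, MvPolynomial.eval ![x j, w j, rg (x j), rg (w j)] β * rg (x j) +
      (v : ℂ) * (MvPolynomial.eval ![x j, w j, rg (x j), rg (w j)] γ * rg (w j)) = 0)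

/-- JOB HOL (theorem `t_HOL : S_PSI → S_HOL` or without hypothesis): `z, rg z, rg' z` are algebraically independent (Hölder), strong form.
PROOF. The function `F(z) = N(z, rg z, rg' z)` is entire; if its zeros accumulate it is `0`. For real `x → ∞`: `rg' x = -rg x ψ(x)`,
`ψ(x) = log x + O(1/x)`. Group the monomials `x^a y^b g^c` of `N` by `k = b + c`: `F(x) = ∑_k r_k(x, ψ(x)) (rg x)^k`,
`r_k = ∑_{b+c=k} n_{abc} x^a (-ψ)^c`. Let `k` be minimal with `r_k ≠ 0` (as a polynomial): `|r_k(x, ψ(x))| ≥ c x^a` for the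
largest power `x^a` in it (its coefficient is a nonzero polynomial in `ψ → ∞`), and the other terms are `≤ x^C |rg x|^(k+1)`,
`|rg x| ≤ e^(-x)` for large `x`. -/
def S_HOL : Prop := ∀ N : MvPolynomial (Fin 3) ℂ, N ≠ 0 →
  ∀ x : ℂ, ¬ AccPt x (𝓟 {z : ℂ | MvPolynomial.eval ![z, rg z, deriv rg z] N = 0})

/-! ## Algebra -/

/-- JOB ND2. PROOF. If `K ∈ I` then `H ∉ I`, `eval ε K = 0`, so `eval ε H = 0`; NdOver for `H` gives `A ≠ 0` with `A - H V ∈ I`, so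
`A(ε ∘ s) = 0`: `E = C A`. If `K ∉ I`: in the fraction field of `Pol ⧸ I` the element `-H/K` is algebraic over `ℂ[s]` (AlgOver for `H`
and for `K`; `IsAlgebraic`), so there is `E ≠ 0` of degree `d` with `∑_l E_l(s) (-H)^l K^(d-l) ∈ I`; where `eval ε K ≠ 0` this gives
`E(ε ∘ s)[G] = 0`; where `eval ε K = 0` use NdOver for `K`: `A_K(ε ∘ s) = 0`. Take `E · C A_K`. -/
def S_ND2 : Prop := ∀ I : Ideal Pol, I.IsPrime → ∀ (m : ℕ) (s : Fin m → Fin 3 ⊕ Fin 3), Indep I s → AlgOver I s → NdOver I s →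
  ∀ H K : Pol, (H ∉ I ∨ K ∉ I) → ∃ E : Polynomial (MvPolynomial (Fin m) ℂ), E ≠ 0 ∧
    ∀ ε : Fin 3 ⊕ Fin 3 → ℂ, (∀ R ∈ I, MvPolynomial.eval ε R = 0) →
    ∀ G : ℂ, MvPolynomial.eval ε H + G * MvPolynomial.eval ε K = 0 →
    (E.map (MvPolynomial.eval fun k => ε (s k))).eval G = 0

/-- JOB JAC (a Jacobian is not zero). `y_l = X (inr l)`, `z_l = X (inl l)`. PROOF. Let `K` be the fraction field of `Pol ⧸ I` and
`Ω = Ω[K⁄ℂ]`. `z_j, y_j, y_k` is a transcendence basis of `K` over `ℂ` (Indep, AlgOver; characteristic `0`), so the differentials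
`dz_j, dy_j, dy_k` are linearly independent over `K` (`MvPolynomial (Fin 3) ℂ → K` is formally étale: localization, then a finite
separable extension; `KaehlerDifferential.tensorKaehlerEquivOfFormallyEtale`, `mvPolynomialBasis`; or: the derivations `∂/∂X_i`
of `ℂ(X_1, X_2, X_3)` extend to `K`, `Differential.differentialFiniteDimensional`). The relations `P, P' ∈ I` give
`P_{z_i} dz_i + P_{y_i} dy_i + P_{z_j} dz_j + P_{y_j} dy_j = 0`, `P'_{z_i} dz_i + P'_{y_i} dy_i + P'_{z_j} dz_j + P'_{y_k} dy_k = 0`. If the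
determinant is `0` there is `(λ, μ) ≠ 0` with `λ (P_{z_i}, P_{y_i}) + μ (P'_{z_i}, P'_{y_i}) = 0`, so
`(λ P_{z_j} + μ P'_{z_j}) dz_j + λ P_{y_j} dy_j + μ P'_{y_k} dy_k = 0`, so `λ P_{y_j} = 0 = μ P'_{y_k}`, contradiction. -/
def S_JAC : Prop := ∀ I : Ideal Pol, I.IsPrime → ∀ i j k : Fin 3, i ≠ j → i ≠ k → j ≠ k →
  Indep I ![Sum.inl j, Sum.inr j, Sum.inr k] → AlgOver I ![Sum.inl j, Sum.inr j, Sum.inr k] →
  ∀ P P' : Pol, P ∈ I → P' ∈ I →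
  P ∈ MvPolynomial.supported ℂ {Sum.inl i, Sum.inl j, Sum.inr i, Sum.inr j} →
  P' ∈ MvPolynomial.supported ℂ {Sum.inl i, Sum.inl j, Sum.inr i, Sum.inr k} →
  MvPolynomial.pderiv (Sum.inr j) P ∉ I → MvPolynomial.pderiv (Sum.inr k) P' ∉ I →
  MvPolynomial.pderiv (Sum.inl i) P * MvPolynomial.pderiv (Sum.inr i) P' -
    MvPolynomial.pderiv (Sum.inr i) P * MvPolynomial.pderiv (Sum.inl i) P' ∉ I

/-! ## Geometry -/

/-- JOB BR (branches of an algebraic function). PROOF. `Q` as a polynomial in `X_1` over `ℂ[X_0]`, `m` its degree, `q` its leading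
coefficient. `Q` is irreducible, so it has no common factor with its derivative in `ℂ(X_0)[X_1]` (Gauss):
`u Q + v ∂_1 Q = r(X_0) ≠ 0`. Take `w` with `r(w) q(w) ≠ 0`: `Q(w, ·)` has `m` simple roots `b_k`; implicit function theorem:
analytic `α_k` near `w`, `α_k(w) = b_k`, `Q(z, α_k z) = 0`; for `z` near `w` the `α_k(z)` are different, and `Q(z, ·)` has degree `m`. -/
def S_BR : Prop := ∀ Q : MvPolynomial (Fin 2) ℂ, Irreducible Q → Q.degreeOf 1 ≠ 0 →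
  ∃ (w : ℂ) (δ : ℝ) (m : ℕ) (α : Fin m → ℂ → ℂ), 0 < δ ∧ (∀ k, AnalyticOnNhd ℂ (α k) (ball w δ)) ∧
    ∀ z ∈ ball w δ, ∀ y : ℂ, MvPolynomial.eval ![z, y] Q = 0 ↔ ∃ k, y = α k z

/-- JOB AXL (the starting theorem AxLindemann for `rg` instead of `Γ`). PROOF. `Pool.Agent.W253.GF.gtd Pool.Agent.W175.GF.gtF`, statement in
`Results/MP_26ad15_nt/AxLindemann.lean`. `P ≠ 0` in `z_k`, `y_i` (`k < d`, `i < n`): multiply by powers of the `y_i` and replace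
`y_i` by `1/y_i` (`Pool.Agent.J4H69.K1.pinvert` in K1/Gamma), write it as a nonzero element of
`MvPolynomial (Fin n) (MvPolynomial (Fin d) ℂ)` (`MvPolynomial.sumAlgEquiv` after swapping). -/
def S_AXL : Prop := ∀ (d n : ℕ) (Ω : Set (Fin d → ℂ)) (y : Fin n → (Fin d → ℂ) → ℂ),
  IsOpen Ω → IsPreconnected Ω → Ω.Nonempty → (∀ i, AnalyticOnNhd ℂ (y i) Ω) →
  (∀ i, ∃ Q : Polynomial (MvPolynomial (Fin d) ℂ), Q ≠ 0 ∧ ∀ t ∈ Ω, (Q.map (MvPolynomial.eval t)).eval (y i t) = 0) →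
  (∀ i, ∀ v : ℂ, ¬ ∀ t ∈ Ω, y i t = v) →
  (∀ i j, i ≠ j → ∀ p q : ℚ, ¬ ∀ t ∈ Ω, y i t = p * y j t + q) →
  ∀ P : MvPolynomial (Fin d ⊕ Fin n) ℂ, P ≠ 0 →
  ∃ t ∈ Ω, MvPolynomial.eval (Sum.elim t fun i => rg (y i t)) P ≠ 0

/-- JOB INV (local inverse on a slice). PROOF. `L : ℂ^N → ℂ^r`, `L = (fderiv (g k) t₀)_k`, is onto (linear independence), so there is a
linear `A : ℂ^r → ℂ^N` with `L A = id`. `F(s) = (g_k(t₀ + A s))_k` is analytic at `0` with derivative `id`; inverse function theorem with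
analytic inverse (`ContDiffAt ℂ ω`), `ψ(u) = t₀ + A F⁻¹(u)`, `Ω` a small ball around `F(0)`. -/
def S_INV : Prop := ∀ (N r : ℕ) (D : Set (Fin N → ℂ)) (g : Fin r → (Fin N → ℂ) → ℂ) (t₀ : Fin N → ℂ),
  IsOpen D → (∀ k, AnalyticOnNhd ℂ (g k) D) → t₀ ∈ D → LinearIndependent ℂ (fun k => fderiv ℂ (g k) t₀) →
  ∃ (Ω : Set (Fin r → ℂ)) (ψ : (Fin r → ℂ) → (Fin N → ℂ)), IsOpen Ω ∧ IsPreconnected Ω ∧ Ω.Nonempty ∧
    AnalyticOnNhd ℂ ψ Ω ∧ (∀ u ∈ Ω, ψ u ∈ D) ∧ ∀ u ∈ Ω, ∀ k, g k (ψ u) = u k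

/-- JOB CHART (theorem `t_CHART : S_AXL → S_INV → S_CHART`). PROOF. `Ω, ψ` from INV for `g_k = f_(e k)`; `y_i = f_i ∘ ψ` on `Ω` is algebraic. Claim:
if `h = f_i - v` or `h = f_i - p f_j - q` satisfies `h ∘ ψ = 0` on `Ω`, then `h = 0` on `D`. Proof: `h` is algebraic over the `f_(e k)` on `D`
(sums of algebraic elements: the ring of analytic functions on the connected open set `D` modulo nothing is a domain; or work in the
quotient of `MvPolynomial (Fin n) ℂ` by the prime ideal of the relations of `f` on `D`), so if `h ≠ 0` on `D`, dividing by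
powers of the variable we get `q_0(f_e) + q_1(f_e) h + ... = 0` on `D` with `q_0 ≠ 0`; on `ψ(Ω)` it gives `q_0(u) = 0` for `u ∈ Ω`,
contradiction. So the `y_i` satisfy the hypotheses of AXL, and `t = ψ(u)`. -/
def S_CHART : Prop := ∀ (N n r : ℕ) (D : Set (Fin N → ℂ)) (f : Fin n → (Fin N → ℂ) → ℂ) (t₀ : Fin N → ℂ) (e : Fin r → Fin n),
  IsOpen D → IsPreconnected D → (∀ i, AnalyticOnNhd ℂ (f i) D) → t₀ ∈ D →
  LinearIndependent ℂ (fun k => fderiv ℂ (f (e k)) t₀) →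
  (∀ i, ∃ Q : Polynomial (MvPolynomial (Fin r) ℂ), Q ≠ 0 ∧
    ∀ t ∈ D, (Q.map (MvPolynomial.eval fun k => f (e k) t)).eval (f i t) = 0) →
  (∀ i, ∀ v : ℂ, ∃ t ∈ D, f i t ≠ v) → (∀ i j, i ≠ j → ∀ p q : ℚ, ∃ t ∈ D, f i t ≠ p * f j t + q) →
  ∀ P : MvPolynomial (Fin r ⊕ Fin n) ℂ, P ≠ 0 →
  ∃ t ∈ D, MvPolynomial.eval (Sum.elim (fun k => f (e k) t) fun i => rg (f i t)) P ≠ 0

/-- JOB FIN1 (theorem `t_FIN1 : S_AXL → S_BR → S_FIN1`): the fibres of `z_a` on `T` are finite near some value.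
PROOF. AlgOver for `X (inl c)`: `E ≠ 0` with `E(z_a, y_a, y_b)[z_c] = 0` on `T`; let `e ≠ 0` be one of its coefficients.
Branches `α_k` of `Q` over `ball w δ` (BR). For each `k` AXL (`d = 1`, `n = 2`, `Ω` = the ball, `y = (z, α_k(z))`) shows that
`e_k(z) = e(z, rg z, rg (α_k z))` is not identically `0` on the ball: `α_k` is algebraic; it is not a constant `v` (otherwise `Q(X, v) = 0`, so
`X_1 - v` divides `Q`, `Q.degreeOf 0 = 0`); `α_k ≠ p z + q` by hypothesis; `z ≠ p α_k + q` (`p = 0` is clear, else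
`α_k = z/p - q/p`). So there is a point of the ball at which all `e_k ≠ 0`, and a small ball `U` around it. For `c' ∈ U` a point `z ∈ T` with
`z a = c'` has `z b = α_k(c')` for some `k`, and `z c` is a root of the nonzero polynomial `E(c', rg c', rg (α_k c'))`. -/
def S_FIN1 : Prop := ∀ (T : Set (Fin 3 → ℂ)) (I : Ideal Pol), (∀ z ∈ T, ∀ R ∈ I, MvPolynomial.eval (env rg z) R = 0) →
  ∀ a b c : Fin 3, a ≠ b → a ≠ c → b ≠ c → ∀ Q : MvPolynomial (Fin 2) ℂ, Irreducible Q →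
  MvPolynomial.rename ![Sum.inl a, Sum.inl b] Q ∈ I → Q.degreeOf 0 ≠ 0 → Q.degreeOf 1 ≠ 0 →
  (∀ p q : ℚ, ∃ x : ℂ, MvPolynomial.eval ![x, p * x + q] Q ≠ 0) →
  AlgOver I ![Sum.inl a, Sum.inr a, Sum.inr b] →
  ∃ U : Set ℂ, IsOpen U ∧ U.Nonempty ∧ ∀ c' ∈ U, {z ∈ T | z a = c'}.Finite

/-- JOB FIN3A (theorem `t_FIN3A : S_TRN → S_FIN3A`): the fibres of `z_c`, first case. PROOF. `R(z_a, z_c, y_c) = 0` on `T`. Some coefficient
(of a power of `z_a`) `r(z_c, y_c)` of `R` is not zero; by TRN there is an open set `U` with `r(c', rg c') ≠ 0` for `c' ∈ U`. So `z_a` has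
finitely many values on the fibre over `c' ∈ U`; for each of them `Q(z_a, z_b) = 0`, and `Q(b', ·) ≠ 0` for all `b'` (otherwise
`X_0 - b'` divides `Q`, `Q.degreeOf 1 = 0`). -/
def S_FIN3A : Prop := ∀ (T : Set (Fin 3 → ℂ)) (I : Ideal Pol), (∀ z ∈ T, ∀ R ∈ I, MvPolynomial.eval (env rg z) R = 0) →
  ∀ a b c : Fin 3, a ≠ b → a ≠ c → b ≠ c → ∀ Q : MvPolynomial (Fin 2) ℂ, Irreducible Q →
  MvPolynomial.rename ![Sum.inl a, Sum.inl b] Q ∈ I → Q.degreeOf 0 ≠ 0 → Q.degreeOf 1 ≠ 0 →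
  ∀ R : MvPolynomial (Fin 3) ℂ, R ≠ 0 → MvPolynomial.rename ![Sum.inl a, Sum.inl c, Sum.inr c] R ∈ I →
  ∃ U : Set ℂ, IsOpen U ∧ U.Nonempty ∧ ∀ c' ∈ U, {z ∈ T | z c = c'}.Finite

/-- JOB FIN3 (theorem `t_FIN3 : S_MIS2 → S_TRN → S_HOL → S_DET → S_COM → S_ND2 → S_FIN3`): the fibres of `z_i`, second case, `z_j` and `z_k`
algebraically dependent. The same proof as FIN (J4H98/K1/Fin.lean) up to point (3). Notation of FIN: `x = z_j`, `w = z_k`, `s = z_i`.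
(0), (1), (2) as in FIN (`Q₀` does not contain `z_i`; COM applies to it as before).
(3) The determinant of DET with rows `R 0 = Q`, `R 1 = P`, `R 2 = P'` vanishes on `T`. Here `Q_i = 0` and `P` contains neither `z_k` nor `y_k`, and
`P'` neither `z_k` nor `y_j`. With `G = rg'(z_i)`, `a₁ = P_{z_i} + P_{y_i} G`, `a₂ = P'_{z_i} + P'_{y_i} G` it is, up to sign,
`β rg'(z_j) + γ rg'(z_k) + δ`, `β = Q_k P_{y_j} a₂`, `γ = Q_j P'_{y_k} a₁`, `δ = Q_k (P_{z_j} a₂ - P'_{z_j} a₁)`. Apply MIS2 on the fibre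
`z_i = c` (`G = rg' c` is a constant). Its three cases are impossible for `n ≥ n₀`, if `c` is outside a countable set:
first: `Q_j, Q_k, P_{y_j}, P'_{y_k}` are `≠ 0` at `p_n` for large `n` (NdOver, as in FIN), so `a₁ = a₂ = 0`, so the determinant
`J = P_{z_i} P'_{y_i} - P_{y_i} P'_{z_i}` vanishes at `p_n`, but it does so only for finitely many `n` (NdOver for `J ∉ I`);
second: by the hypothesis on `Q₀(·, X, X + m)` (this polynomial does not depend on `z_i` and has finitely many zeros);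
third: `β y_j + v γ y_k = H + G K` with `H = Q_k P_{y_j} y_j P'_{z_i} + v Q_j P'_{y_k} y_k P_{z_i}`,
`K = Q_k P_{y_j} y_j P'_{y_i} + v Q_j P'_{y_k} y_k P_{y_i}`; not both are in `I`, since
`P'_{y_i} H - P'_{z_i} K = v Q_j P'_{y_k} y_k J ∉ I` (`y_k = X (inr k) ∉ I` is a hypothesis). ND2 gives
`E_v(z_i, z_j, y_i)[G] ≠ 0` vanishing at these points; some coefficient (of a power of `z_j`) of it is a nonzero polynomial
`N_v(z_i, y_i)[G]`; by HOL `N_v(c, rg c)[rg' c] ≠ 0` for `c` outside a countable set (all `v ∈ ℚ`), and then only finitely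
many values `x_n` are possible. -/
def S_FIN3 : Prop := ∀ (T : Set (Fin 3 → ℂ)) (I : Ideal Pol), Good T → I.IsPrime →
  (∀ z ∈ T, ∀ R ∈ I, MvPolynomial.eval (env rg z) R = 0) →
  ∀ i j k : Fin 3, i ≠ j → i ≠ k → j ≠ k →
  Indep I ![Sum.inl i, Sum.inl j, Sum.inr i] →
  AlgOver I ![Sum.inl i, Sum.inl j, Sum.inr i] → AlgOver I ![Sum.inl i, Sum.inl k, Sum.inr i] →
  NdOver I ![Sum.inl i, Sum.inl j, Sum.inr i] →
  ∀ Q₀ : MvPolynomial (Fin 3) ℂ, Irreducible Q₀ → MvPolynomial.rename Sum.inl Q₀ ∈ I →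
  Q₀.degreeOf i = 0 → Q₀.degreeOf j ≠ 0 → Q₀.degreeOf k ≠ 0 →
  (∀ (m : ℤ) (z : Fin 3 → ℂ), ∃ b : ℂ, MvPolynomial.eval (Function.update (Function.update z j b) k (b + m)) Q₀ ≠ 0) →
  ∀ Q P P' : Pol, Q ∈ I → P ∈ I → P' ∈ I →
  MvPolynomial.pderiv (Sum.inl i) Q = 0 → (∀ l, MvPolynomial.pderiv (Sum.inr l) Q = 0) →
  MvPolynomial.pderiv (Sum.inl k) P = 0 → MvPolynomial.pderiv (Sum.inr k) P = 0 →
  MvPolynomial.pderiv (Sum.inl k) P' = 0 → MvPolynomial.pderiv (Sum.inr j) P' = 0 →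
  MvPolynomial.pderiv (Sum.inl j) Q ∉ I → MvPolynomial.pderiv (Sum.inl k) Q ∉ I →
  MvPolynomial.pderiv (Sum.inr j) P ∉ I → MvPolynomial.pderiv (Sum.inr k) P' ∉ I →
  MvPolynomial.X (Sum.inr k) ∉ I →
  MvPolynomial.pderiv (Sum.inl i) P * MvPolynomial.pderiv (Sum.inr i) P' -
    MvPolynomial.pderiv (Sum.inr i) P * MvPolynomial.pderiv (Sum.inl i) P' ∉ I →
  ∃ U : Set ℂ, IsOpen U ∧ U.Nonempty ∧ (∀ c ∈ U, ∀ x, ¬ AccPt x (𝓟 {z ∈ T | z i = c})) ∧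
    ∃ C₁ : Set ℂ, C₁.Countable ∧ ∀ c ∈ U, c ∉ C₁ → {z ∈ T | z i = c}.Finite

end Pool.Agent.J4H69.K2
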