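import Pool.Agent.J4H69.K1.Gamma
import Pool.Agent.J4H69.K2.Stm
import Pool.Agent.J4H17.K1.Det

set_option autoImplicit false

/-!
Project K2: algebra modulo the ideal of relations, second part.
-/

namespace Pool.Agent.J4H69.K2

open Filter Topology Set Metric
open scoped Polynomial
open Pool.Agent.J4H69.K1

lemma deriv_ne {D : Set ℂ} (hD : IsOpen D) (hp : IsPreconnected D) (hne : D.Nonempty) {u : ℂ → ℂ}
    (hu : AnalyticOnNhd ℂ u D) (h : ∀ v, ∃ t ∈ D, u t ≠ v) : ∃ t ∈ D, deriv u t ≠ 0 := by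
  by_contra hcon
  push Not at hcon
  obtain ⟨t₀, ht₀⟩ := hne
  obtain ⟨t, ht, h1⟩ := h (u t₀)
  apply h1
  exact hD.is_const_of_deriv_eq_zero hp (fun y hy => (hu y hy).differentiableAt.differentiableWithinAt)
    (fun y hy => hcon y hy) ht ht₀

/-- a nonconstant function is transcendental -/
lemma indep_one {D : Set ℂ} {f : Fin 3 → ℂ → ℂ} (hf : ∀ i, AnalyticOnNhd ℂ (f i) D) (hD : IsOpen D) {i : Fin 3}
    (h : ∃ t ∈ D, deriv (f i) t ≠ 0) : Indep (rel D f) (![Sum.inl i] : Fin 1 → Fin 3 ⊕ Fin 3) := by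
  obtain ⟨t₀, ht₀, hder⟩ := h
  intro P hP
  have h1 : HasStrictDerivAt (f i) (deriv (f i) t₀) t₀ := (hf i t₀ ht₀).hasStrictDerivAt
  have h2 : ∀ᶠ t in 𝓝 t₀, MvPolynomial.eval (fun _ => f i t) P = 0 := by
    filter_upwards [hD.mem_nhds ht₀] with t ht
    have h3 := rename_mem_rel.1 hP t ht
    have e : (fun k => env rg (fun i => f i t) ((![Sum.inl i] : Fin 1 → Fin 3 ⊕ Fin 3) k)) =
        fun _ => f i t := by
      funext k
      fin_cases k
      rfl
    rw [e] at h3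
    exact h3
  have h3 : ∀ᶠ w in 𝓝 (f i t₀), MvPolynomial.eval (fun _ => w) P = 0 := by
    rw [← h1.map_nhds_eq hder]
    exact h2
  have h4 : (fun w : ℂ => MvPolynomial.eval (fun _ => w) P) = fun _ => 0 := by
    have h5 : AnalyticOnNhd ℂ (fun w : ℂ => MvPolynomial.eval (fun _ => w) P) univ :=
      AnalyticOnNhd.aeval_mvPolynomial (A := ℂ) (f := fun w : ℂ => fun _ : Fin 1 => w)
        (fun _ => analyticOnNhd_id) P
    exact h5.eq_of_eventuallyEq (z₀ := f i t₀) (fun w _ => analyticAt_const) h3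
  refine MvPolynomial.funext fun x => ?_
  have e : x = fun _ => x 0 := by
    funext k
    fin_cases k
    rfl
  rw [map_zero, e]
  exact congrFun h4 (x 0)

lemma trs_of_cons {m : ℕ} {I : Ideal Pol} {s : Fin m → Fin 3 ⊕ Fin 3} {v : Fin 3 ⊕ Fin 3}
    (h : Indep I (Fin.cons v s : Fin (m + 1) → Fin 3 ⊕ Fin 3)) : Trs I s v := by
  rintro E ⟨l, hl⟩ hE
  have h1 : MvPolynomial.rename (Fin.cons v s : Fin (m + 1) → Fin 3 ⊕ Fin 3)
      ((MvPolynomial.finSuccEquiv ℂ m).symm E) ∈ I := by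
    rw [rename_cons, AlgEquiv.apply_symm_apply]
    exact hE
  have h2 := h _ h1
  have h3 : E = 0 := (map_eq_zero_iff _ (MvPolynomial.finSuccEquiv ℂ m).symm.injective).1 h2
  apply hl
  rw [h3, Polynomial.coeff_zero, map_zero]
  exact I.zero_mem

lemma indep_comp {m n : ℕ} {I : Ideal Pol} {s : Fin m → Fin 3 ⊕ Fin 3} (hs : Indep I s) {g : Fin n → Fin m}
    (hg : Function.Injective g) : Indep I (s ∘ g) := by
  intro P hP
  have h1 : MvPolynomial.rename s (MvPolynomial.rename g P) ∈ I := by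
    rw [MvPolynomial.rename_rename]
    exact hP
  exact (map_eq_zero_iff _ (MvPolynomial.rename_injective _ hg)).1 (hs _ h1)

lemma pair_swap {I : Ideal Pol} {p q : Fin 3 ⊕ Fin 3} (h : Indep I (![p, q] : Fin 2 → Fin 3 ⊕ Fin 3)) :
    Indep I (![q, p] : Fin 2 → Fin 3 ⊕ Fin 3) := by
  have h1 := indep_comp h (g := ![1, 0]) (by decide)
  have e : (![p, q] : Fin 2 → Fin 3 ⊕ Fin 3) ∘ (![1, 0] : Fin 2 → Fin 2) = ![q, p] := by
    funext k
    fin_cases k <;> rfl
  rwa [e] at h1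

lemma pair_right {I : Ideal Pol} {p q : Fin 3 ⊕ Fin 3} (h : Indep I (![p, q] : Fin 2 → Fin 3 ⊕ Fin 3)) :
    Indep I (![q] : Fin 1 → Fin 3 ⊕ Fin 3) := by
  have h1 := indep_comp h (g := ![1]) (by decide)
  have e : (![p, q] : Fin 2 → Fin 3 ⊕ Fin 3) ∘ (![1] : Fin 1 → Fin 2) = ![q] := by
    funext k
    fin_cases k
    rfl
  rwa [e] at h1

lemma inj_one (v : Fin 3 ⊕ Fin 3) : Function.Injective (![v] : Fin 1 → Fin 3 ⊕ Fin 3) :=
  Function.injective_of_subsingleton _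

/-- transitivity -/
lemma alg_trans {I : Ideal Pol} (hI : I.IsPrime) {S S' : Set (Fin 3 ⊕ Fin 3)} {v : Fin 3 ⊕ Fin 3}
    (h : IsAlgebraic (Algebra.adjoin ℂ (vq I '' S)) (vq I v))
    (hS : ∀ w ∈ S, w ∉ S' → IsAlgebraic (Algebra.adjoin ℂ (vq I '' S')) (vq I w)) :
    IsAlgebraic (Algebra.adjoin ℂ (vq I '' S')) (vq I v) := by
  have : I.IsPrime := hI
  have : IsDomain (Pol ⧸ I) := Ideal.Quotient.isDomain _
  refine IsAlgebraic.adjoin_of_forall_isAlgebraic (R := ℂ) (s := vq I '' S) ?_ h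
  rintro x ⟨⟨w, hw, rfl⟩, hx⟩
  refine hS w hw fun h' => hx ⟨w, h', rfl⟩

/-- if `p, q` are dependent and `q` is transcendental then `p` is algebraic over `q` -/
lemma alg_of_pair {I : Ideal Pol} {p q : Fin 3 ⊕ Fin 3} (h : ¬ Indep I (![p, q] : Fin 2 → Fin 3 ⊕ Fin 3))
    (hq : Indep I (![q] : Fin 1 → Fin 3 ⊕ Fin 3)) :
    IsAlgebraic (Algebra.adjoin ℂ (vq I '' range (![q] : Fin 1 → Fin 3 ⊕ Fin 3))) (vq I p) :=
  alg_of_not_trs fun hT => h (indep_cons hq hT)

/-- exchange -/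
lemma indep_exchange {I : Ideal Pol} (hI : I.IsPrime) {a b c : Fin 3 ⊕ Fin 3}
    (hb : Indep I (![b] : Fin 1 → Fin 3 ⊕ Fin 3)) (hc : Indep I (![c] : Fin 1 → Fin 3 ⊕ Fin 3))
    (hab : ¬ Indep I (![a, b] : Fin 2 → Fin 3 ⊕ Fin 3))
    (hac : Indep I (![a, c] : Fin 2 → Fin 3 ⊕ Fin 3)) : Indep I (![b, c] : Fin 2 → Fin 3 ⊕ Fin 3) := by
  by_contra hbc
  have h1 := alg_of_pair hab hb
  have h2 := alg_of_pair hbc hc
  have h3 := alg_trans hI h1 (S' := range (![c] : Fin 1 → Fin 3 ⊕ Fin 3)) (by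
    rintro w ⟨l, rfl⟩ -
    fin_cases l
    exact h2)
  exact not_trs_of_alg (inj_one c) h3 (trs_of_cons (v := a) (s := ![c]) hac)

/-- an irreducible relation between two of the `z_i` -/
lemma exists_irr {I : Ideal Pol} (hI : I.IsPrime) {a b : Fin 3}
    (hab : ¬ Indep I (![Sum.inl a, Sum.inl b] : Fin 2 → Fin 3 ⊕ Fin 3))
    (ha : Indep I (![Sum.inl a] : Fin 1 → Fin 3 ⊕ Fin 3)) (hb : Indep I (![Sum.inl b] : Fin 1 → Fin 3 ⊕ Fin 3)) :
    ∃ Q : MvPolynomial (Fin 2) ℂ, Prime Q ∧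
      MvPolynomial.rename (![Sum.inl a, Sum.inl b] : Fin 2 → Fin 3 ⊕ Fin 3) Q ∈ I ∧
      Q.degreeOf 0 ≠ 0 ∧ Q.degreeOf 1 ≠ 0 := by
  classical
  unfold Indep at hab
  push Not at hab
  obtain ⟨P, hPI, hP⟩ := hab
  set J : Ideal (MvPolynomial (Fin 2) ℂ) := I.comap (rn (![Sum.inl a, Sum.inl b] : Fin 2 → Fin 3 ⊕ Fin 3)) with hJ
  have hJp : J.IsPrime := Ideal.IsPrime.comap _
  have hJ0 : J ≠ ⊥ := by
    intro h
    have h1 : P ∈ J := hPI
    rw [h] at h1
    exact hP h1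
  obtain ⟨Q, h1, h2⟩ := hJp.exists_mem_prime_of_ne_bot hJ0
  have h1' : MvPolynomial.rename (![Sum.inl a, Sum.inl b] : Fin 2 → Fin 3 ⊕ Fin 3) Q ∈ I := h1
  have key : ∀ (l : Fin 2) (l' : Fin 2) (v : Fin 3), l ≠ l' →
      (![Sum.inl a, Sum.inl b] : Fin 2 → Fin 3 ⊕ Fin 3) l = Sum.inl v →
      Indep I (![Sum.inl v] : Fin 1 → Fin 3 ⊕ Fin 3) → Q.degreeOf l' ≠ 0 := by
    intro l l' v hll hlv hv
    rw [← MvPolynomial.mem_vars_iff_degreeOf_ne_zero]
    by_contra hcon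
    obtain ⟨Q', hQ'⟩ := MvPolynomial.exists_rename_eq_of_vars_subset_range Q (![l] : Fin 1 → Fin 2)
      (Function.injective_of_subsingleton _) (by
        intro x hx
        have hxl : x ≠ l' := fun h => hcon (h ▸ hx)
        refine ⟨0, ?_⟩
        change l = x
        omega)
    have h3 : MvPolynomial.rename (![Sum.inl v] : Fin 1 → Fin 3 ⊕ Fin 3) Q' ∈ I := by
      have e : (![Sum.inl v] : Fin 1 → Fin 3 ⊕ Fin 3) =
          (![Sum.inl a, Sum.inl b] : Fin 2 → Fin 3 ⊕ Fin 3) ∘ ![l] := by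
        funext k
        fin_cases k
        exact hlv.symm
      rw [e, ← MvPolynomial.rename_rename, hQ']
      exact h1'
    have h4 := hv Q' h3
    rw [h4, map_zero] at hQ'
    exact h2.ne_zero hQ'.symm
  exact ⟨Q, h2, h1', key 1 0 b (by decide) rfl hb, key 0 1 a (by decide) rfl ha⟩

/-- the rename of a prime polynomial is prime -/
lemma prime_rename {σ τ : Type} {g : σ → τ} (hg : Function.Injective g) {Q : MvPolynomial σ ℂ} (hQ : Prime Q) :
    Prime (MvPolynomial.rename g Q) := by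
  set E : σ ≃ range g := Equiv.ofInjective g hg with hE
  have h1 : Prime (MvPolynomial.rename E Q) := by
    have h2 := MulEquiv.prime_iff (MvPolynomial.renameEquiv ℂ E).toMulEquiv (p := Q)
    exact h2.2 hQ
  have h3 := (MvPolynomial.prime_rename_iff (range g)).2 h1
  rw [MvPolynomial.rename_rename] at h3
  exact h3

/-- a prime polynomial in two variables which vanishes on a line is a multiple of the equation of the line -/
lemma line_dvd {Q : MvPolynomial (Fin 2) ℂ} (hQ : Prime Q) {p q : ℂ}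
    (h : ∀ x : ℂ, MvPolynomial.eval ![x, p * x + q] Q = 0) {x y : ℂ} (hxy : MvPolynomial.eval ![x, y] Q = 0) :
    y = p * x + q := by
  set L : MvPolynomial (Fin 2) ℂ :=
    MvPolynomial.X 1 - (MvPolynomial.C p * MvPolynomial.X 0 + MvPolynomial.C q) with hL
  set φ : MvPolynomial (Fin 2) ℂ →ₐ[ℂ] MvPolynomial (Fin 2) ℂ :=
    MvPolynomial.aeval ![MvPolynomial.X 0, MvPolynomial.C p * MvPolynomial.X 0 + MvPolynomial.C q] with hφ
  have h1 : φ Q = 0 := by
    refine MvPolynomial.funext fun v => ?_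
    rw [map_zero]
    have e : MvPolynomial.eval v (φ Q) = MvPolynomial.eval ![v 0, p * v 0 + q] Q := by
      rw [hφ, MvPolynomial.aeval_def, MvPolynomial.eval₂_eq_eval_map, ← MvPolynomial.eval₂_eq_eval_map,
        MvPolynomial.hom_eval₂]
      congr 1
      · ext a
        simp
      · funext i
        fin_cases i <;> simp
    rw [e]
    exact h _
  have h2 : L ∣ Q := by
    rw [← Ideal.mem_span_singleton, ← Ideal.Quotient.eq_zero_iff_mem]
    have h3 : ((Ideal.Quotient.mkₐ ℂ (Ideal.span {L})).comp φ) = Ideal.Quotient.mkₐ ℂ (Ideal.span {L}) := by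
      apply MvPolynomial.algHom_ext
      intro i
      fin_cases i
      · simp [hφ]
      · have h4 : L ∈ Ideal.span {L} := Ideal.mem_span_singleton_self L
        have h5 := (Ideal.Quotient.eq (I := Ideal.span {L})).2 h4
        simp [hφ]
        exact h5.symm
    have h4 := DFunLike.congr_fun h3 Q
    rw [AlgHom.comp_apply, h1, map_zero] at h4
    exact h4.symm
  obtain ⟨u, hu⟩ := h2
  rcases hQ.irreducible.isUnit_or_isUnit hu with h3 | h3
  · exfalso
    have h4 := h3.map (MvPolynomial.eval ![0, q])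
    rw [isUnit_iff_ne_zero] at h4
    apply h4
    simp [hL]
  · have h4 := h3.map (MvPolynomial.eval ![x, y])
    rw [isUnit_iff_ne_zero] at h4
    rw [hu, map_mul] at hxy
    have h5 := (mul_eq_zero.1 hxy).resolve_right h4
    have h6 : y - (p * x + q) = 0 := by
      have e : MvPolynomial.eval ![x, y] L = y - (p * x + q) := by simp [hL]
      rw [← e]
      exact h5
    linear_combination h6

end Pool.Agent.J4H69.K2
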