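import Pool.Agent.J4H69.K2.Germ
import Pool.Agent.J4H69.K1.Asm

set_option autoImplicit false

/-!
Project K2: three functions of one variable, all cases.
-/

namespace Pool.Agent.J4H69.K2

open Filter Topology Set Metric
open Pool.Agent.J4H69.K1
open Pool.Agent.J4H74.AS (Germ Low High Full AxL full)

lemma card_two {I : Finset (Fin 2)} (h : I.card = 2) (i : Fin 2) : i ∈ I := by
  have h1 : I = Finset.univ := by
    rw [← Finset.card_eq_iff_eq_univ, h]
    simp
  rw [h1]
  exact Finset.mem_univ _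

/-- the case of two dependent functions, from the theorem of helper74 -/
lemma h3_of_full {D : Set (Fin 1 → ℂ)} {f : Fin 3 → (Fin 1 → ℂ) → ℂ} {a b : Fin 3}
    (hdep : ¬ Indep (rel (D1 D) (f1 f)) (![Sum.inl a, Sum.inl b] : Fin 2 → Fin 3 ⊕ Fin 3))
    (hF : Full D (![f a, f b] : Fin 2 → (Fin 1 → ℂ) → ℂ)) :
    Indep (rel (D1 D) (f1 f)) (![Sum.inl a, Sum.inr a, Sum.inr b] : Fin 3 → Fin 3 ⊕ Fin 3) ∨
      Indep (rel (D1 D) (f1 f)) (![Sum.inl b, Sum.inr a, Sum.inr b] : Fin 3 → Fin 3 ⊕ Fin 3) := by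
  classical
  obtain ⟨I, J, hcard, hI⟩ := hF
  have hIle : I.card ≤ 2 := (Finset.card_le_univ I).trans (by simp)
  have hJle : J.card ≤ 2 := (Finset.card_le_univ J).trans (by simp)
  by_cases hI2 : I.card = 2
  · exfalso
    apply hdep
    intro P hP
    by_contra hne
    set g : Fin 2 → I ⊕ J := fun k => Sum.inl ⟨k, card_two hI2 k⟩ with hg
    have hgi : Function.Injective g := by
      intro x y hxy
      have := Sum.inl_injective hxy
      exact congrArg Subtype.val this
    obtain ⟨t, ht, -, h1⟩ := hI (MvPolynomial.rename g P) fun h =>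
      hne ((map_eq_zero_iff _ (MvPolynomial.rename_injective _ hgi)).1 h)
    apply h1
    rw [MvPolynomial.eval_rename]
    have h2 := rename_mem_rel.1 hP (t 0) (by
      change (fun _ => t 0) ∈ D
      rw [eta]
      exact ht)
    rw [env_pair] at h2
    rw [← h2]
    congr 2
    funext k
    fin_cases k
    · change f a t = f a fun _ => t 0
      rw [eta]
    · change f b t = f b fun _ => t 0
      rw [eta]
  · have hI1 : I.card = 1 := by omega
    have hJ2 : J.card = 2 := by omega
    obtain ⟨x, hx⟩ := Finset.card_eq_one.1 hI1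
    have hxI : x ∈ I := by rw [hx]; exact Finset.mem_singleton_self x
    set g : Fin 3 → I ⊕ J := ![Sum.inl ⟨x, hxI⟩, Sum.inr ⟨0, card_two hJ2 0⟩, Sum.inr ⟨1, card_two hJ2 1⟩]
      with hg
    have hgi : Function.Injective g := by
      intro k l hkl
      fin_cases k <;> fin_cases l <;> simp_all [hg]
    have key : ∀ v : Fin 3, (∀ t, (![f a, f b] : Fin 2 → (Fin 1 → ℂ) → ℂ) x t = f v t) →
        Indep (rel (D1 D) (f1 f)) (![Sum.inl v, Sum.inr a, Sum.inr b] : Fin 3 → Fin 3 ⊕ Fin 3) := by
      intro v hv P hP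
      by_contra hne
      obtain ⟨P', hP', hev⟩ := pinvert (fun k : Fin 3 => k ≠ 0) P hne
      obtain ⟨t, ht, hpole, h1⟩ := hI (MvPolynomial.rename g P') fun h =>
        hP' ((map_eq_zero_iff _ (MvPolynomial.rename_injective _ hgi)).1 h)
      apply h1
      rw [MvPolynomial.eval_rename]
      have hta : Complex.Gamma (f a t) ≠ 0 := by
        rw [Ne, Complex.Gamma_eq_zero_iff]
        rintro ⟨m, hm⟩
        exact hpole 0 (card_two hJ2 0) m hm
      have htb : Complex.Gamma (f b t) ≠ 0 := by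
        rw [Ne, Complex.Gamma_eq_zero_iff]
        rintro ⟨m, hm⟩
        exact hpole 1 (card_two hJ2 1) m hm
      have h2 := rename_mem_rel.1 hP (t 0) (by
        change (fun _ => t 0) ∈ D
        rw [eta]
        exact ht)
      refine hev _ _ ?_ ?_ h2
      · intro s hs
        fin_cases s
        · exact absurd rfl hs
        · change Complex.Gamma (f a t) * rg (f a fun _ => t 0) = 1
          rw [eta, rg]
          exact mul_inv_cancel₀ hta
        · change Complex.Gamma (f b t) * rg (f b fun _ => t 0) = 1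
          rw [eta, rg]
          exact mul_inv_cancel₀ htb
      · intro s hs
        have hs0 : s = 0 := by
          by_contra h
          exact hs h
        subst hs0
        change (![f a, f b] : Fin 2 → (Fin 1 → ℂ) → ℂ) x t = f v fun _ => t 0
        rw [eta, hv]
    fin_cases x
    · exact Or.inl (key a fun t => rfl)
    · exact Or.inr (key b fun t => rfl)

/-- **Ax–Schanuel for the Gamma function and three functions of one variable** -/
theorem full_curve (AXL : AxL) (hLOC : S_LOC) (hDEP : S_DEP) (hTRD : S_TRD) (hMIN : S_MIN) (hFIN : S_FIN)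
    (hJAC : S_JAC) (hFIN1 : S_FIN1) (hFIN3A : S_FIN3A) (hFIN3 : S_FIN3)
    {D : Set (Fin 1 → ℂ)} {f : Fin 3 → (Fin 1 → ℂ) → ℂ} (hG : Germ D f) : Full D f := by
  by_cases hL : Low D f
  · exact full AXL hG (Or.inr (Or.inl hL))
  obtain ⟨hD, hp, hf, hc, hH, t₀, ht₀, -, -⟩ := hG
  by_contra hF
  have hD1 := D1_open hD
  have hp1 := D1_pre hp
  have hf1 := f1_an hf
  have hne : (D1 D).Nonempty := by
    obtain ⟨s, hs, -⟩ := exists_D1 (p := fun _ => True) ⟨t₀, ht₀, trivial⟩
    exact ⟨s, hs⟩
  have hnc : ∀ i, ∃ s ∈ D1 D, deriv (f1 f i) s ≠ 0 := by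
    intro i
    refine deriv_ne hD1 hp1 hne (hf1 i) fun v => ?_
    have h1 := hc i v
    push Not at h1
    exact exists_D1 h1
  have hno : ∀ e : Fin 4 → Fin 3 ⊕ Fin 3, ¬ Indep (rel (D1 D) (f1 f)) e := fun e he =>
    hF (full_of_indep hD hp hf hnc he)
  have hI := rel_prime hD1 hp1 hne hf1
  by_cases hall : ∀ i j : Fin 3, i ≠ j →
      Indep (rel (D1 D) (f1 f)) (![Sum.inl i, Sum.inl j] : Fin 2 → Fin 3 ⊕ Fin 3)
  · obtain ⟨e, he⟩ := four_rg hLOC hDEP hTRD hMIN hFIN hD1 hp1 hf1 (by
      intro i j hij P hP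
      by_contra hcon
      push Not at hcon
      apply hP
      apply hall i j hij
      rw [rename_mem_rel]
      intro t ht
      rw [env_pair]
      exact hcon t ht)
    exact hno e he
  push Not at hall
  obtain ⟨a, b, hab, hdep⟩ := hall
  obtain ⟨c, hac, hbc⟩ := third a b
  have ind1 : ∀ i, Indep (rel (D1 D) (f1 f)) (![Sum.inl i] : Fin 1 → Fin 3 ⊕ Fin 3) := fun i =>
    indep_one hf1 hD1 (hnc i)
  have hdep' : ¬ Indep (rel (D1 D) (f1 f)) (![Sum.inl b, Sum.inl a] : Fin 2 → Fin 3 ⊕ Fin 3) := fun h =>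
    hdep (pair_swap h)
  -- an independent pair
  have hpq : ∃ p q : Fin 3, Indep (rel (D1 D) (f1 f)) (![Sum.inl p, Sum.inl q] : Fin 2 → Fin 3 ⊕ Fin 3) := by
    unfold Low at hL
    push Not at hL
    obtain ⟨g, hg⟩ := hL
    refine ⟨g 0, g 1, fun P hP => ?_⟩
    by_contra hne
    obtain ⟨t, ht, h1⟩ := hg P hne
    apply h1
    have h2 := rename_mem_rel.1 hP (t 0) (by
      change (fun _ => t 0) ∈ D
      rw [eta]
      exact ht)
    rw [env_pair] at h2
    rw [← h2]
    congr 2
    funext k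
    fin_cases k
    · change f (g 0) t = f (g 0) fun _ => t 0
      rw [eta]
    · change f (g 1) t = f (g 1) fun _ => t 0
      rw [eta]
  have h2 : Indep (rel (D1 D) (f1 f)) (![Sum.inl a, Sum.inl c] : Fin 2 → Fin 3 ⊕ Fin 3) := by
    obtain ⟨p, q, hpq⟩ := hpq
    have hne : p ≠ q := by
      intro h
      have h1 := indep_inj hpq (a₁ := 0) (a₂ := 1) (by
        change Sum.inl p = Sum.inl q
        rw [h])
      exact absurd h1 (by decide)
    rcases range_inl hab hac hbc p with rfl | rfl | rfl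
    · rcases range_inl hab hac hbc q with rfl | rfl | rfl
      · exact absurd rfl hne
      · exact absurd hpq hdep
      · exact hpq
    · rcases range_inl hab hac hbc q with rfl | rfl | rfl
      · exact absurd hpq hdep'
      · exact absurd rfl hne
      · exact indep_exchange hI (ind1 _) (ind1 _) hdep' hpq
    · rcases range_inl hab hac hbc q with rfl | rfl | rfl
      · exact pair_swap hpq
      · exact indep_exchange hI (ind1 _) (ind1 _) hdep' (pair_swap hpq)
      · exact absurd rfl hne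
  have h2' : Indep (rel (D1 D) (f1 f)) (![Sum.inl b, Sum.inl c] : Fin 2 → Fin 3 ⊕ Fin 3) :=
    indep_exchange hI (ind1 _) (ind1 _) hdep h2
  have hG2 : Germ D (![f a, f b] : Fin 2 → (Fin 1 → ℂ) → ℂ) := by
    refine ⟨hD, hp, ?_, ?_, ?_, ?_⟩
    · intro i
      fin_cases i
      · exact hf a
      · exact hf b
    · intro i
      fin_cases i
      · exact hc a
      · exact hc b
    · intro i j hij
      fin_cases i <;> fin_cases j
      · exact absurd rfl hij
      · exact hH a b hab
      · exact hH b a hab.symm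
      · exact absurd rfl hij
    · obtain ⟨s, hs, hds⟩ := hnc a
      refine ⟨fun _ => s, hs, ![0], ?_⟩
      rw [linearIndependent_unique_iff]
      change fderiv ℂ (f a) (fun _ => s) ≠ 0
      intro h
      apply hds
      have h3 : HasDerivAt (fun s : ℂ => (fun _ : Fin 1 => s)) (fun _ => 1) s := by
        rw [hasDerivAt_pi]
        intro _
        exact hasDerivAt_id s
      have h4 : HasFDerivAt (f a) (fderiv ℂ (f a) fun _ => s) ((fun s : ℂ => (fun _ : Fin 1 => s)) s) :=
        (hf a _ hs).differentiableAt.hasFDerivAt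
      have h5 := h4.comp_hasDerivAt s h3
      have h6 : HasDerivAt (f1 f a) ((fderiv ℂ (f a) fun _ => s) fun _ => 1) s := h5
      rw [h6.deriv, h]
      rfl
  have hF2 : Full D (![f a, f b] : Fin 2 → (Fin 1 → ℂ) → ℂ) := full AXL hG2 (Or.inl (by norm_num))
  rcases h3_of_full hdep hF2 with h3 | h3
  · refine k2_false hLOC hDEP hTRD hMIN hJAC hFIN1 hFIN3A hFIN3 hD1 hp1 hf1 hnc hab hac hbc ?_ hno hdep h2 h3
    intro p q
    have h4 := hH b a hab.symm p q
    push Not at h4
    exact exists_D1 h4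
  · have h3' : Indep (rel (D1 D) (f1 f)) (![Sum.inl b, Sum.inr b, Sum.inr a] : Fin 3 → Fin 3 ⊕ Fin 3) := by
      have h4 := indep_comp h3 (g := ![0, 2, 1]) (by decide)
      have e : (![Sum.inl b, Sum.inr a, Sum.inr b] : Fin 3 → Fin 3 ⊕ Fin 3) ∘ (![0, 2, 1] : Fin 3 → Fin 3) =
          ![Sum.inl b, Sum.inr b, Sum.inr a] := by
        funext k
        fin_cases k <;> rfl
      rwa [e] at h4
    refine k2_false hLOC hDEP hTRD hMIN hJAC hFIN1 hFIN3A hFIN3 hD1 hp1 hf1 hnc hab.symm hbc hac ?_ hno hdep'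
      h2' h3'
    intro p q
    have h4 := hH a b hab p q
    push Not at h4
    exact exists_D1 h4

end Pool.Agent.J4H69.K2
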