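import Pool.Agent.J4H69.AX.Gam
import Pool.Agent.J4H69.K1.Gamma
import Pool.Agent.J4H74.AS.Defs

set_option autoImplicit false

/-!
Arithmetic consequences of the Ax–Schanuel theorem: countably many exceptions.
-/

namespace Pool.Agent.J4H69.K2.Pt

open Filter Topology Set Metric
open Pool.Agent.J4H69.K1 (rg rg_diff pinvert)
open Pool.Agent.J4H69.AX (HasPiece mvc indep_le thin_nopiece thin_zero_countable)
open Pool.Agent.J4H74.AS (Germ Full)

variable {F : Type} [Field F] [Algebra F ℂ] {n : ℕ}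

/-- the point `(z, 1 / Γ(z))` -/
noncomputable def en (z : Fin n → ℂ) : Fin n ⊕ Fin n → ℂ := Sum.elim z fun i => rg (z i)

lemma en_an (R : MvPolynomial (Fin n ⊕ Fin n) F) :
    AnalyticOnNhd ℂ (fun z : Fin n → ℂ => MvPolynomial.aeval (en z) R) univ := by
  refine AnalyticOnNhd.aeval_mvPolynomial (A := F) (f := fun z : Fin n → ℂ => en z) ?_ R
  rintro (i | i)
  · exact (ContinuousLinearMap.proj (R := ℂ) (φ := fun _ : Fin n => ℂ) i).analyticOnNhd _
  · exact fun z _ => AnalyticAt.comp (g := rg) (f := fun z : Fin n → ℂ => z i)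
      (rg_diff.analyticAt (z i))
      ((ContinuousLinearMap.proj (R := ℂ) (φ := fun _ : Fin n => ℂ) i).analyticAt z)

/-- the points which satisfy all relations of `z` over `F` -/
def Zs (F : Type) [Field F] [Algebra F ℂ] (z : Fin n → ℂ) : Set (Fin n → ℂ) :=
  {w | ∀ R : MvPolynomial (Fin n ⊕ Fin n) F, MvPolynomial.aeval (en z) R = 0 → MvPolynomial.aeval (en w) R = 0}

/-- outside of a countable set there is a disc of points which satisfy all the relations -/
theorem arc [Countable F] : ∃ B : Set (Fin n → ℂ), B.Countable ∧ ∀ z ∉ B, HasPiece 0 (Zs F z) z := by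
  classical
  have hc : Countable (MvPolynomial (Fin n ⊕ Fin n) F) := mvc _
  set Z : Finset (MvPolynomial (Fin n ⊕ Fin n) F) → Set (Fin n → ℂ) := fun s =>
    {x | x ∈ univ ∧ ∀ k : s, MvPolynomial.aeval (en x) k.1 = 0} with hZ
  refine ⟨⋃ s : Finset (MvPolynomial (Fin n ⊕ Fin n) F),
    {x | x ∈ univ ∧ (∀ k : s, MvPolynomial.aeval (en x) k.1 = 0) ∧ ¬ HasPiece 0 (Z s) x}, ?_, ?_⟩
  · refine countable_iUnion fun s => ?_
    exact thin_zero_countable (thin_nopiece 0 n (Fin n) (Fintype.card_fin n) s univ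
      (fun R z => MvPolynomial.aeval (en z) R.1) isOpen_univ (fun R => en_an R.1))
  · intro z hz
    set I : Ideal (MvPolynomial (Fin n ⊕ Fin n) F) :=
      RingHom.ker (MvPolynomial.aeval (en z) : MvPolynomial (Fin n ⊕ Fin n) F →ₐ[F] ℂ).toRingHom with hI
    obtain ⟨s, hs⟩ := (IsNoetherian.noetherian I : I.FG)
    have hmem : ∀ R, R ∈ I ↔ MvPolynomial.aeval (en z) R = 0 := fun R => RingHom.mem_ker
    have hs1 : ∀ k : s, MvPolynomial.aeval (en z) k.1 = 0 := by
      intro k
      rw [← hmem, ← hs]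
      exact Submodule.subset_span k.2
    have hp : HasPiece 0 (Z s) z := by
      by_contra hcon
      exact hz (mem_iUnion.2 ⟨s, mem_univ _, hs1, hcon⟩)
    have hZZ : Z s ⊆ Zs F z := by
      intro w hw R hR
      rw [← hmem, ← hs] at hR
      have h1 : Ideal.span (s : Set (MvPolynomial (Fin n ⊕ Fin n) F)) ≤
          RingHom.ker (MvPolynomial.aeval (en w) : MvPolynomial (Fin n ⊕ Fin n) F →ₐ[F] ℂ).toRingHom := by
        rw [Ideal.span_le]
        intro k hk
        exact RingHom.mem_ker.2 (hw.2 ⟨k, hk⟩)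
      exact RingHom.mem_ker.1 (h1 hR)
    obtain ⟨φ, h1, h2, h3, h4⟩ := hp
    exact ⟨φ, h1, h2, h3, h4.mono fun s hs => hZZ hs⟩

lemma eval_sumF {S T : Type} (Q : MvPolynomial (S ⊕ T) F) (y : S → ℂ) (c : T → ℂ) :
    MvPolynomial.eval y ((MvPolynomial.sumAlgEquiv F S T Q).map
      (MvPolynomial.aeval c : MvPolynomial T F →ₐ[F] ℂ).toRingHom) =
      MvPolynomial.aeval (Sum.elim y c) Q := by
  induction Q using MvPolynomial.induction_on with
  | C a => simp
  | add p q hp hq => rw [map_add, map_add, map_add, map_add, hp, hq]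
  | mul_X p i hp =>
    rw [map_mul, map_mul, map_mul, map_mul, hp]
    congr 1
    rcases i with i | i
    · simp
    · simp

/-- constants which are independent over `F` and functions which are independent over `ℂ` -/
theorem combine {A : Type} {D : Set A} {φ : A → Fin n → ℂ} {z : Fin n → ℂ} {σ τ : Type}
    (hD : ∀ t ∈ D, φ t ∈ Zs F z) {ι : σ → Fin n ⊕ Fin n} {κ : τ → Fin n ⊕ Fin n}
    (hι : ∀ P : MvPolynomial σ ℂ, P ≠ 0 → ∃ t ∈ D, MvPolynomial.eval (fun s => en (φ t) (ι s)) P ≠ 0)
    (hκ : ∀ t ∈ D, ∀ x, en (φ t) (κ x) = en z (κ x))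
    (hin : AlgebraicIndependent F fun x => en z (κ x)) :
    AlgebraicIndependent F (fun x => en z (Sum.elim ι κ x)) := by
  rw [algebraicIndependent_iff]
  intro R hR
  have h1 : MvPolynomial.aeval (en z) (MvPolynomial.rename (Sum.elim ι κ) R) = 0 := by
    rw [MvPolynomial.aeval_rename]
    exact hR
  set R' := MvPolynomial.sumAlgEquiv F σ τ R with hR'
  set ev : MvPolynomial τ F →+* ℂ :=
    (MvPolynomial.aeval (fun x => en z (κ x)) : MvPolynomial τ F →ₐ[F] ℂ).toRingHom with hev
  have h2 : R'.map ev = 0 := by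
    by_contra hne
    obtain ⟨t, ht, h3⟩ := hι _ hne
    apply h3
    rw [hR', hev, eval_sumF]
    have h4 := hD t ht _ h1
    rw [MvPolynomial.aeval_rename] at h4
    rw [← h4]
    congr 2
    funext x
    rcases x with x | x
    · rfl
    · exact (hκ t ht x).symm
  have h3 : R' = 0 := by
    ext1 m
    rw [MvPolynomial.coeff_zero]
    have h4 := congrArg (MvPolynomial.coeff m) h2
    rw [MvPolynomial.coeff_map, MvPolynomial.coeff_zero] at h4
    exact (map_eq_zero_iff _ hin).1 h4
  exact (map_eq_zero_iff _ (MvPolynomial.sumAlgEquiv F σ τ).injective).1 h3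

/-- the set of the coordinates that are not constant on the disc, and the disc -/
theorem disc {z : Fin n → ℂ} (h : HasPiece 0 (Zs F z) z) :
    ∃ (D : Set (Fin 1 → ℂ)) (φ : (Fin 1 → ℂ) → (Fin n → ℂ)), IsOpen D ∧ IsPreconnected D ∧ 0 ∈ D ∧ φ 0 = z ∧
      (∀ i, AnalyticOnNhd ℂ (fun t => φ t i) D) ∧ (∀ t ∈ D, φ t ∈ Zs F z) ∧ ∃ i, ∃ t ∈ D, φ t i ≠ z i := by
  obtain ⟨φ, h1, h2, h3, h4⟩ := h
  obtain ⟨ε, hε, hball⟩ := Metric.eventually_nhds_iff_ball.1 (h1.eventually_analyticAt.and h4)
  refine ⟨ball 0 ε, φ, isOpen_ball, (convex_ball _ _).isPreconnected, mem_ball_self hε, h2, ?_, ?_, ?_⟩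
  · intro i t ht
    exact analyticAt_pi_iff.1 (hball t ht).1 i
  · intro t ht
    exact (hball t ht).2
  · by_contra hcon
    push Not at hcon
    have h5 : φ =ᶠ[𝓝 0] fun _ => z := by
      filter_upwards [ball_mem_nhds (0 : Fin (0 + 1) → ℂ) hε] with t ht
      funext i
      exact hcon i t ht
    have h6 : fderiv ℂ φ 0 = 0 := by
      rw [h5.fderiv_eq]
      simp
    have h7 := h3 (a₁ := fun _ => (1 : ℂ)) (a₂ := 0) (by rw [h6]; simp)
    have h8 := congrFun h7 0
    simp at h8

/-- from `Full` to independence of the reciprocals -/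
theorem indep_of_full {k : ℕ} {D : Set (Fin 1 → ℂ)} {φ : (Fin 1 → ℂ) → (Fin n → ℂ)} {g : Fin k → Fin n}
    (h : Full D (fun x t => φ t (g x))) :
    ∃ (σ : Type) (_ : Fintype σ) (ι : σ → Fin n ⊕ Fin n), Fintype.card σ = k + 1 ∧
      ∀ P : MvPolynomial σ ℂ, P ≠ 0 → ∃ t ∈ D, MvPolynomial.eval (fun s => en (φ t) (ι s)) P ≠ 0 := by
  classical
  obtain ⟨I, J, hc, h⟩ := h
  refine ⟨I ⊕ J, inferInstance, Sum.map (fun i => g i) (fun j => g j), ?_, ?_⟩
  · rw [Fintype.card_sum, Fintype.card_coe, Fintype.card_coe]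
    exact hc
  · intro P hP
    obtain ⟨P', hP', hev⟩ := pinvert (fun s : I ⊕ J => s.isRight = true) P hP
    obtain ⟨t, ht, h1, h2⟩ := h P' hP'
    refine ⟨t, ht, fun h3 => h2 (hev _ _ ?_ ?_ h3)⟩
    · rintro (s | s) hs
      · simp at hs
      · have h4 : Complex.Gamma (φ t (g s)) ≠ 0 := by
          rw [Ne, Complex.Gamma_eq_zero_iff]
          rintro ⟨m, hm⟩
          exact h1 s s.2 m hm
        change Complex.Gamma (φ t (g s)) * rg (φ t (g s)) = 1
        rw [rg]
        exact mul_inv_cancel₀ h4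
    · rintro (s | s) hs
      · rfl
      · simp at hs

open scoped IntermediateField.algebraAdjoinAdjoin in
lemma alg1' {τ : Type} [Fintype τ] (z : τ → ℂ) : ∃ J : Finset τ, AlgebraicIndependent F (fun j : ↥J => z j) ∧
    Algebra.trdeg F (IntermediateField.adjoin F (range z)) ≤ (J.card : Cardinal) := by
  classical
  set A := Algebra.adjoin F (range z) with hA
  set s : Set A := ((↑) : A → ℂ) ⁻¹' (range z) with hs
  have htop : Algebra.adjoin F s = ⊤ := Algebra.adjoin_adjoin_coe_preimage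
  have halg : Algebra.IsAlgebraic (Algebra.adjoin F s) A :=
    ⟨fun x => isAlgebraic_algebraMap (⟨x, by rw [htop]; trivial⟩ : Algebra.adjoin F s)⟩
  obtain ⟨t, hts, ht⟩ := exists_isTranscendenceBasis_subset (R := F) s
  have hcard : Cardinal.mk t = Algebra.trdeg F A := ht.cardinalMk_eq_trdeg
  have htr : Algebra.trdeg F (IntermediateField.adjoin F (range z)) = Algebra.trdeg F A := by
    have h1 := _root_.trdeg_add_eq F A (A := IntermediateField.adjoin F (range z))
    rw [_root_.trdeg_eq_zero (R := A), add_zero] at h1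
    exact h1.symm
  have hex : ∀ x : t, ∃ i, z i = (x.1 : ℂ) := fun x => hts x.2
  choose e he using hex
  have hei : Function.Injective e := by
    intro x y hxy
    apply Subtype.ext
    apply Subtype.ext
    rw [← he x, ← he y, hxy]
  have hfin : Finite t := Finite.of_injective e hei
  have : Fintype t := Fintype.ofFinite t
  refine ⟨Finset.univ.image e, ?_, ?_⟩
  · have hr : ∀ j : ↥(Finset.univ.image e), ∃ x : t, e x = j := fun j => by
      obtain ⟨x, -, hx⟩ := Finset.mem_image.1 j.2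
      exact ⟨x, hx⟩
    choose r hr using hr
    have h1 : AlgebraicIndependent F (fun x : t => (x.1 : ℂ)) :=
      ht.1.map' (f := A.val) Subtype.val_injective
    have h2 : (fun j : ↥(Finset.univ.image e) => z j) = (fun x : t => (x.1 : ℂ)) ∘ r := by
      funext j
      rw [Function.comp_apply, ← he, hr]
    rw [h2]
    refine h1.comp _ fun j k hjk => ?_
    apply Subtype.ext
    rw [← hr j, ← hr k, hjk]
  · rw [htr, ← hcard, Finset.card_image_of_injective _ hei, Finset.card_univ,
      Cardinal.mk_fintype]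

/-- the two fields agree -/
lemma adj {τ : Type} (u : τ → ℂ) :
    IntermediateField.adjoin F (range (Sum.elim u fun i => rg (u i))) =
      IntermediateField.adjoin F (range u ∪ range fun i => Complex.Gamma (u i)) := by
  apply le_antisymm
  · rw [IntermediateField.adjoin_le_iff]
    rintro x ⟨i | i, rfl⟩
    · exact IntermediateField.subset_adjoin _ _ (Or.inl ⟨i, rfl⟩)
    · exact inv_mem (IntermediateField.subset_adjoin F _ (Or.inr ⟨i, rfl⟩))
  · rw [IntermediateField.adjoin_le_iff]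
    rintro x (⟨i, rfl⟩ | ⟨i, rfl⟩)
    · exact IntermediateField.subset_adjoin _ _ ⟨Sum.inl i, rfl⟩
    · have h : (Complex.Gamma (u i))⁻¹ ∈ IntermediateField.adjoin F
          (range (Sum.elim u fun i => rg (u i))) :=
        IntermediateField.subset_adjoin F _ ⟨Sum.inr i, rfl⟩
      have h2 := inv_mem h
      rw [inv_inv] at h2
      exact h2

/-- the complex numbers which occur, without the index `i`: two of them are independent -/
lemma two_const {z : Fin n → ℂ} {i : Fin n}
    (h : 2 ≤ Algebra.trdeg F (IntermediateField.adjoin F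
      (range (fun j : {j // j ≠ i} => z j.1) ∪ range fun j : {j // j ≠ i} => Complex.Gamma (z j.1)))) :
    ∃ (τ : Type) (_ : Fintype τ) (κ : τ → Fin n ⊕ Fin n), Fintype.card τ = 2 ∧
      (∀ x, κ x ≠ Sum.inl i ∧ κ x ≠ Sum.inr i) ∧ AlgebraicIndependent F fun x => en z (κ x) := by
  classical
  rw [← adj] at h
  obtain ⟨J, hJ, hc⟩ := alg1' (F := F) (Sum.elim (fun j : {j // j ≠ i} => z j.1) fun j : {j // j ≠ i} => rg (z j.1))
  have h2 : 2 ≤ J.card := by exact_mod_cast h.trans hc
  obtain ⟨J', hJ', hJc⟩ := Finset.exists_subset_card_eq h2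
  refine ⟨J', inferInstance, fun x => Sum.map Subtype.val Subtype.val x.1, ?_, ?_, ?_⟩
  · rw [Fintype.card_coe, hJc]
  · rintro ⟨x | x, hx⟩
    · exact ⟨fun h => x.2 (Sum.inl_injective h), fun h => by simp at h⟩
    · exact ⟨fun h => by simp at h, fun h => x.2 (Sum.inr_injective h)⟩
  · have h3 := hJ.comp (fun x : J' => (⟨x.1, hJ' x.2⟩ : J)) (by
      intro x y hxy
      exact Subtype.ext (congrArg (fun x : J => x.1) hxy))
    have e : ((fun j : J => Sum.elim (fun j : {j // j ≠ i} => z j.1) (fun j : {j // j ≠ i} => rg (z j.1)) j.1) ∘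
        (fun x : J' => (⟨x.1, hJ' x.2⟩ : J))) =
        fun x : J' => en z (Sum.map Subtype.val Subtype.val x.1) := by
      funext x
      obtain ⟨x | x, hx⟩ := x <;> rfl
    rw [← e]
    exact h3

/-- **Countably many points.** -/
theorem points_three [Countable F]
    (hfull : ∀ (k : ℕ), k ≤ 3 → ∀ (D : Set (Fin 1 → ℂ)) (f : Fin k → (Fin 1 → ℂ) → ℂ), Germ D f → Full D f) :
    {z : Fin n → ℂ | (∀ i j, i ≠ j → ∀ p q : ℚ, z i ≠ p * z j + q) ∧
      (∃ J : Finset (Fin n), J.card = 3 ∧ ∀ j ∈ J, ¬ (IsAlgebraic F (z j) ∧ IsAlgebraic F (Complex.Gamma (z j)))) ∧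
      (∀ i, 2 ≤ Algebra.trdeg F (IntermediateField.adjoin F
        (range (fun j : {j // j ≠ i} => z j.1) ∪ range fun j : {j // j ≠ i} => Complex.Gamma (z j.1)))) ∧
      Algebra.trdeg F (IntermediateField.adjoin F (range z ∪ range fun i => Complex.Gamma (z i))) ≤ 3}.Countable := by
  classical
  obtain ⟨B, hB, hBp⟩ := arc (F := F) (n := n)
  refine hB.mono ?_
  rintro z ⟨hH, ⟨J, hJ3, hJ⟩, hb, htr⟩
  by_contra hz
  obtain ⟨D, φ, hD, hp, h0, hφ0, hφa, hφZ, i₀, t₀, ht₀, hi₀⟩ := disc (hBp z hz)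
  set N : Finset (Fin n) := Finset.univ.filter fun i => ∃ t ∈ D, φ t i ≠ z i with hN
  have hmN : ∀ i, i ∈ N ↔ ∃ t ∈ D, φ t i ≠ z i := by
    intro i
    simp [hN]
  have hN0 : 0 < N.card := Finset.card_pos.2 ⟨i₀, (hmN i₀).2 ⟨t₀, ht₀, hi₀⟩⟩
  obtain ⟨N', hN', hNc⟩ := Finset.exists_subset_card_eq (min_le_left N.card 3)
  set k := min N.card 3 with hk
  have hk3 : k ≤ 3 := min_le_right _ _
  have hk1 : 0 < k := lt_min hN0 (by norm_num)
  set g : Fin k → Fin n := fun x => N'.orderEmbOfFin hNc x with hg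
  have hgN : ∀ x, g x ∈ N := fun x => hN' (Finset.orderEmbOfFin_mem _ _ _)
  have hgi : Function.Injective g := (N'.orderEmbOfFin hNc).injective
  have hG : Germ D (fun x t => φ t (g x)) := by
    refine ⟨hD, hp, fun x => hφa (g x), ?_, ?_, ?_⟩
    · intro x v hv
      obtain ⟨t, ht, h1⟩ := (hmN _).1 (hgN x)
      apply h1
      have h2 : φ t (g x) = v := hv t ht
      have h3 : φ 0 (g x) = v := hv 0 h0
      rw [h2, ← h3, hφ0]
    · intro x y hxy p q hv
      have h1 : φ 0 (g x) = p * φ 0 (g y) + q := hv 0 h0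
      rw [hφ0] at h1
      exact hH _ _ (fun h => hxy (hgi h)) p q h1
    · have hne : ∃ t₁ ∈ D, fderiv ℂ (fun t => φ t (g ⟨0, hk1⟩)) t₁ ≠ 0 := by
        by_contra hcon
        push Not at hcon
        obtain ⟨t, ht, h1⟩ := (hmN _).1 (hgN ⟨0, hk1⟩)
        apply h1
        have h2 := hD.is_const_of_fderiv_eq_zero (𝕜 := ℂ) hp (f := fun t => φ t (g ⟨0, hk1⟩))
          (fun y hy => (hφa _ y hy).differentiableAt.differentiableWithinAt)
          (fun y hy => hcon y hy) ht h0
        have h3 : φ t (g ⟨0, hk1⟩) = φ 0 (g ⟨0, hk1⟩) := h2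
        rw [h3, hφ0]
      obtain ⟨t₁, ht₁, h1⟩ := hne
      refine ⟨t₁, ht₁, ![⟨0, hk1⟩], ?_⟩
      rw [linearIndependent_unique_iff]
      exact h1
  obtain ⟨σ, hσ, ι, hσc, hι⟩ := indep_of_full (hfull k hk3 D _ hG)
  -- it is enough to find constants
  have key : ∀ (τ : Type) [Fintype τ] (κ : τ → Fin n ⊕ Fin n), Fintype.card τ + k = 3 →
      (∀ x, ∀ i ∈ N, κ x ≠ Sum.inl i ∧ κ x ≠ Sum.inr i) →
      (AlgebraicIndependent F fun x => en z (κ x)) → False := by
    intro τ _ κ hτ hκN hκ
    have h1 := combine hφZ hι (κ := κ) (by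
      intro t ht x
      obtain ⟨i, hi⟩ : ∃ i, κ x = Sum.inl i ∨ κ x = Sum.inr i := by
        rcases κ x with i | i
        · exact ⟨i, Or.inl rfl⟩
        · exact ⟨i, Or.inr rfl⟩
      have hiN : i ∉ N := by
        intro h
        obtain ⟨h2, h3⟩ := hκN x i h
        rcases hi with hi | hi
        · exact h2 hi
        · exact h3 hi
      have h2 : φ t i = z i := by
        by_contra h
        exact hiN ((hmN i).2 ⟨t, ht, h⟩)
      rcases hi with hi | hi
      · rw [hi]
        exact h2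
      · rw [hi]
        change rg (φ t i) = rg (z i)
        rw [h2]) hκ
    have h2 := indep_le (IntermediateField.adjoin F (range z ∪ range fun i => Complex.Gamma (z i)))
      (x := fun x => en z (Sum.elim ι κ x)) (by
        intro x
        rcases Sum.elim ι κ x with i | i
        · exact IntermediateField.subset_adjoin _ _ (Or.inl ⟨i, rfl⟩)
        · exact inv_mem (IntermediateField.subset_adjoin F _ (Or.inr ⟨i, rfl⟩))) h1
    have h3 := h2.trans htr
    rw [Fintype.card_sum, hσc] at h3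
    have h4 : k + 1 + Fintype.card τ ≤ 3 := by exact_mod_cast h3
    omega
  rcases (by omega : k = 3 ∨ k = 2 ∨ k = 1) with h3 | h2 | h1
  · refine key (Fin 0) Fin.elim0 (by simp [h3]) (fun x => x.elim0) ?_
    rw [algebraicIndependent_empty_type_iff]
    exact (algebraMap F ℂ).injective
  · have hNc2 : N.card = 2 := by omega
    obtain ⟨j, hjJ, hjN⟩ : ∃ j ∈ J, j ∉ N := by
      by_contra hcon
      push Not at hcon
      have := Finset.card_le_card (fun j hj => hcon j hj : J ⊆ N)
      omega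
    have h4 := hJ j hjJ
    rw [not_and_or] at h4
    rcases h4 with h4 | h4
    · refine key (Fin 1) (fun _ => Sum.inl j) (by simp [h2]) ?_ ?_
      · intro _ i hi
        refine ⟨fun h => hjN ?_, fun h => by simp at h⟩
        rw [Sum.inl_injective h]
        exact hi
      · rw [algebraicIndependent_unique_type_iff]
        exact h4
    · refine key (Fin 1) (fun _ => Sum.inr j) (by simp [h2]) ?_ ?_
      · intro _ i hi
        refine ⟨fun h => by simp at h, fun h => hjN ?_⟩
        rw [Sum.inr_injective h]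
        exact hi
      · rw [algebraicIndependent_unique_type_iff]
        intro h5
        apply h4
        have h6 := IsAlgebraic.inv h5
        change IsAlgebraic F ((Complex.Gamma (z j))⁻¹)⁻¹ at h6
        rwa [inv_inv] at h6
  · have hNc1 : N.card = 1 := by omega
    obtain ⟨i, hi⟩ := Finset.card_eq_one.1 hNc1
    obtain ⟨τ, hτ, κ, hc, hκi, hκ⟩ := two_const (hb i)
    refine key τ κ (by omega) ?_ hκ
    intro x j hj
    rw [hi, Finset.mem_singleton] at hj
    rw [hj]
    exact hκi x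

end Pool.Agent.J4H69.K2.Pt
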