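import Pool.Agent.J4H69.K2.Curve
import Pool.Agent.J4H69.K2.Points
import Pool.Agent.J4H69.K1.Final
import Pool.Agent.J4H22.K2.Br
import Pool.Agent.J4H22.K2.Fin1
import Pool.Agent.J4H28.K2.Nd2
import Pool.Agent.J4H45.K2.Axl
import Pool.Agent.J4H45.K2.Fin3
import Pool.Agent.J4H57.K2.Left2
import Pool.Agent.J4H63.K2.Mis2
import Pool.Agent.J4H72.K2.Fin3a
import Pool.Agent.J4H72.K2.Hol
import Pool.Agent.J4H74.K2.Jac
import Pool.Agent.W175.GF.Final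
import Pool.Agent.W253.GF.GTD

set_option autoImplicit false

/-!
Project K2: the complete Ax–Schanuel inequality for the Gamma function and `n ≤ 3`.
-/

namespace Pool.Agent.J4H69.K2

open Pool.Agent.J4H69.K1
open Pool.Agent.J4H74.AS (Germ Low High Full AxL full)

/-- curves, three functions -/
theorem curve {D : Set (Fin 1 → ℂ)} {f : Fin 3 → (Fin 1 → ℂ) → ℂ} (hG : Germ D f) : Full D f :=
  full_curve (Pool.Agent.W253.GF.gtd Pool.Agent.W175.GF.gtF) Pool.Agent.J4H45.K1.t_LOC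
    (Pool.Agent.J4H25.K1.t_DEP t_MAXB) Pool.Agent.J4H17.K1.t_TRD Pool.Agent.J4H17.K1.t_MIN
    (Pool.Agent.J4H98.K1.t_FIN
      (Pool.Agent.J4H63.K1.t_MIS Pool.Agent.J4H21.K1.t_PSI Pool.Agent.J4H21.K1.t_LEFT Pool.Agent.J4H98.K1.t_CL
        Pool.Agent.J4H98.K1.t_PC Pool.Agent.J4H98.K1.t_DOM)
      Pool.Agent.J4H98.K1.t_TRN Pool.Agent.J4H17.K1.t_DET Pool.Agent.J4H17.K1.t_COM)
    Pool.Agent.J4H74.K2.t_JAC
    (Pool.Agent.J4H22.K2.t_FIN1 Pool.Agent.J4H45.K2.t_AXL Pool.Agent.J4H22.K2.t_BR)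
    (Pool.Agent.J4H72.K2.t_FIN3A Pool.Agent.J4H98.K1.t_TRN)
    (Pool.Agent.J4H45.K2.t_FIN3
      (Pool.Agent.J4H63.K2.t_MIS2 Pool.Agent.J4H21.K1.t_PSI Pool.Agent.J4H21.K1.t_LEFT
        Pool.Agent.J4H57.K2.t_LEFT2 Pool.Agent.J4H98.K1.t_CL Pool.Agent.J4H98.K1.t_PC Pool.Agent.J4H98.K1.t_DOM)
      Pool.Agent.J4H98.K1.t_TRN Pool.Agent.J4H72.K2.t_HOL
      Pool.Agent.J4H17.K1.t_DET Pool.Agent.J4H17.K1.t_COM Pool.Agent.J4H28.K2.t_ND2)
    hG

/-- **Ax–Schanuel for the Gamma function, `n ≤ 3`** -/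
theorem full_three {d n : ℕ} (hn : n ≤ 3) (hd : 1 ≤ d) {D : Set (Fin d → ℂ)} {f : Fin n → (Fin d → ℂ) → ℂ}
    (hG : Germ D f) : Full D f := by
  by_cases h : n ≤ d + 1
  · exact full (Pool.Agent.W253.GF.gtd Pool.Agent.W175.GF.gtF) hG (Or.inl h)
  · have h1 : n = 3 := by omega
    have h2 : d = 1 := by omega
    subst h1
    subst h2
    exact curve hG

/-- **The arithmetic consequence** -/
theorem points {F : Type} [Field F] [Algebra F ℂ] [Countable F] (n : ℕ) :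
    {z : Fin n → ℂ | (∀ i j, i ≠ j → ∀ p q : ℚ, z i ≠ p * z j + q) ∧
      (∃ J : Finset (Fin n), J.card = 3 ∧ ∀ j ∈ J, ¬ (IsAlgebraic F (z j) ∧ IsAlgebraic F (Complex.Gamma (z j)))) ∧
      (∀ i, 2 ≤ Algebra.trdeg F (IntermediateField.adjoin F
        (Set.range (fun j : {j // j ≠ i} => z j.1) ∪
          Set.range fun j : {j // j ≠ i} => Complex.Gamma (z j.1)))) ∧
      Algebra.trdeg F (IntermediateField.adjoin F
        (Set.range z ∪ Set.range fun i => Complex.Gamma (z i))) ≤ 3}.Countable :=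
  Pt.points_three fun _ hk _ _ hG => full_three hk le_rfl hG

end Pool.Agent.J4H69.K2
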