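import Pool.Agent.J4H69.K2.Points

set_option autoImplicit false

/-!
Arithmetic consequences of the Ax–Schanuel theorem in codimension two: exceptional sets of any dimension.
-/

namespace Pool.Agent.J4H69.K2.Pt

open Filter Topology Set Metric
open Pool.Agent.J4H69.K1 (rg rg_diff pinvert)
open Pool.Agent.J4H69.AX (HasPiece Thin mvc indep_le thin_nopiece thin_union)
open Pool.Agent.J4H74.AS (Germ Full)

variable {F : Type} [Field F] [Algebra F ℂ] {n : ℕ}

/-- outside of a thin set there is a piece of points which satisfy all the relations -/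
theorem arcM [Countable F] (m : ℕ) : ∃ B : Set (Fin n → ℂ), Thin m B ∧ ∀ z ∉ B, HasPiece m (Zs F z) z := by
  classical
  have hc : Countable (MvPolynomial (Fin n ⊕ Fin n) F) := mvc _
  set Z : Finset (MvPolynomial (Fin n ⊕ Fin n) F) → Set (Fin n → ℂ) := fun s =>
    {x | x ∈ univ ∧ ∀ k : s, MvPolynomial.aeval (en x) k.1 = 0} with hZ
  refine ⟨⋃ s : Finset (MvPolynomial (Fin n ⊕ Fin n) F),
    {x | x ∈ univ ∧ (∀ k : s, MvPolynomial.aeval (en x) k.1 = 0) ∧ ¬ HasPiece m (Z s) x}, ?_, ?_⟩
  · refine thin_union fun s => ?_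
    exact thin_nopiece m n (Fin n) (Fintype.card_fin n) s univ
      (fun R z => MvPolynomial.aeval (en z) R.1) isOpen_univ (fun R => en_an R.1)
  · intro z hz
    set I : Ideal (MvPolynomial (Fin n ⊕ Fin n) F) :=
      RingHom.ker (MvPolynomial.aeval (en z) : MvPolynomial (Fin n ⊕ Fin n) F →ₐ[F] ℂ).toRingHom with hI
    obtain ⟨s, hs⟩ := (IsNoetherian.noetherian I : I.FG)
    have hmem : ∀ R, R ∈ I ↔ MvPolynomial.aeval (en z) R = 0 := fun R => RingHom.mem_ker
    have hs1 : ∀ k : s, MvPolynomial.aeval (en z) k.1 = 0 := by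
      intro k
      rw [← hmem, ← hs]
      exact Submodule.subset_span k.2
    have hp : HasPiece m (Z s) z := by
      by_contra hcon
      exact hz (mem_iUnion.2 ⟨s, mem_univ _, hs1, hcon⟩)
    have hZZ : Z s ⊆ Zs F z := by
      intro w hw R hR
      rw [← hmem, ← hs] at hR
      have h1 : Ideal.span (s : Set (MvPolynomial (Fin n ⊕ Fin n) F)) ≤
          RingHom.ker (MvPolynomial.aeval (en w) : MvPolynomial (Fin n ⊕ Fin n) F →ₐ[F] ℂ).toRingHom := by
        rw [Ideal.span_le]
        intro k hk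
        exact RingHom.mem_ker.2 (hw.2 ⟨k, hk⟩)
      exact RingHom.mem_ker.1 (h1 hR)
    obtain ⟨φ, h1, h2, h3, h4⟩ := hp
    exact ⟨φ, h1, h2, h3, h4.mono fun s hs => hZZ hs⟩

/-- an injective linear map has independent coordinates -/
lemma exists_rows {d : ℕ} {A : (Fin d → ℂ) →L[ℂ] (Fin n → ℂ)} (hA : Function.Injective A) :
    ∃ e : Fin d → Fin n, LinearIndependent ℂ
      (fun k => (ContinuousLinearMap.proj (R := ℂ) (φ := fun _ : Fin n => ℂ) (e k)).comp A) := by
  classical
  set L : Fin n → Module.Dual ℂ (Fin d → ℂ) := fun i =>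
    (LinearMap.proj (R := ℂ) (φ := fun _ : Fin n => ℂ) i).comp A.toLinearMap with hL
  have hspan : Submodule.span ℂ (range L) = ⊤ := by
    rw [eq_top_iff]
    rintro f -
    obtain ⟨g, hg⟩ := (LinearMap.dualMap_surjective_iff (f := A.toLinearMap)).2 hA f
    have h1 : f = ∑ i, g (Pi.single i 1) • L i := by
      apply LinearMap.ext
      intro x
      rw [← hg, LinearMap.dualMap_apply]
      have h2 : A.toLinearMap x = ∑ i, (A x i) • (Pi.single i (1 : ℂ) : Fin n → ℂ) := by
        funext j
        rw [Finset.sum_apply]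
        simp [Pi.single_apply]
      rw [h2, map_sum]
      simp only [map_smul, LinearMap.sum_apply, LinearMap.smul_apply, smul_eq_mul, hL,
        LinearMap.comp_apply, LinearMap.proj_apply]
      refine Finset.sum_congr rfl fun i _ => ?_
      rw [mul_comm]
      rfl
    rw [h1]
    exact Submodule.sum_mem _ fun i _ => Submodule.smul_mem _ _ (Submodule.subset_span ⟨i, rfl⟩)
  obtain ⟨κ, a, ha, hs, hli⟩ := exists_linearIndependent' ℂ L
  have hfin : Finite κ := Finite.of_injective a ha
  have : Fintype κ := Fintype.ofFinite κ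
  have hb : Fintype.card κ = d := by
    have B : Module.Basis κ ℂ (Module.Dual ℂ (Fin d → ℂ)) := Module.Basis.mk hli (by rw [hs, hspan])
    rw [← Module.finrank_eq_card_basis B, Subspace.dual_finrank_eq]
    simp
  set E : Fin d ≃ κ := (Fintype.equivFinOfCardEq hb).symm with hE
  refine ⟨fun k => a (E k), ?_⟩
  apply LinearIndependent.of_comp (ContinuousLinearMap.coeLM ℂ)
  exact hli.comp E E.injective

/-- two of the numbers which occur outside of `S` are independent -/
lemma two_constM {z : Fin n → ℂ} {S : Finset (Fin n)}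
    (h : 2 ≤ Algebra.trdeg F (IntermediateField.adjoin F
      (range (fun j : {j // j ∉ S} => z j.1) ∪ range fun j : {j // j ∉ S} => Complex.Gamma (z j.1)))) :
    ∃ (τ : Type) (_ : Fintype τ) (κ : τ → Fin n ⊕ Fin n), Fintype.card τ = 2 ∧
      (∀ x, ∀ i ∈ S, κ x ≠ Sum.inl i ∧ κ x ≠ Sum.inr i) ∧ AlgebraicIndependent F fun x => en z (κ x) := by
  classical
  rw [← adj] at h
  obtain ⟨J, hJ, hc⟩ := alg1' (F := F)
    (Sum.elim (fun j : {j // j ∉ S} => z j.1) fun j : {j // j ∉ S} => rg (z j.1))
  have h2 : 2 ≤ J.card := by exact_mod_cast h.trans hc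
  obtain ⟨J', hJ', hJc⟩ := Finset.exists_subset_card_eq h2
  refine ⟨J', inferInstance, fun x => Sum.map Subtype.val Subtype.val x.1, ?_, ?_, ?_⟩
  · rw [Fintype.card_coe, hJc]
  · rintro ⟨x | x, hx⟩ i hi
    · exact ⟨fun h => x.2 (by rw [show x.1 = i from Sum.inl_injective h]; exact hi), fun h => by simp at h⟩
    · exact ⟨fun h => by simp at h, fun h => x.2 (by rw [show x.1 = i from Sum.inr_injective h]; exact hi)⟩
  · have h3 := hJ.comp (fun x : J' => (⟨x.1, hJ' x.2⟩ : J)) (by
      intro x y hxy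
      exact Subtype.ext (congrArg (fun x : J => x.1) hxy))
    have e : ((fun j : J => Sum.elim (fun j : {j // j ∉ S} => z j.1)
        (fun j : {j // j ∉ S} => rg (z j.1)) j.1) ∘
        (fun x : J' => (⟨x.1, hJ' x.2⟩ : J))) =
        fun x : J' => en z (Sum.map Subtype.val Subtype.val x.1) := by
      funext x
      obtain ⟨x | x, hx⟩ := x <;> rfl
    rw [← e]
    exact h3

/-- from `Full` to independence of the reciprocals -/
theorem indep_of_fullM {k d : ℕ} {D : Set (Fin d → ℂ)} {φ : (Fin d → ℂ) → (Fin n → ℂ)} {g : Fin k → Fin n}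
    (h : Full D (fun x t => φ t (g x))) :
    ∃ (σ : Type) (_ : Fintype σ) (ι : σ → Fin n ⊕ Fin n), Fintype.card σ = k + d ∧
      ∀ P : MvPolynomial σ ℂ, P ≠ 0 → ∃ t ∈ D, MvPolynomial.eval (fun s => en (φ t) (ι s)) P ≠ 0 := by
  classical
  obtain ⟨I, J, hc, h⟩ := h
  refine ⟨I ⊕ J, inferInstance, Sum.map (fun i => g i) (fun j => g j), ?_, ?_⟩
  · rw [Fintype.card_sum, Fintype.card_coe, Fintype.card_coe]
    exact hc
  · intro P hP
    obtain ⟨P', hP', hev⟩ := pinvert (fun s : I ⊕ J => s.isRight = true) P hP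
    obtain ⟨t, ht, h1, h2⟩ := h P' hP'
    refine ⟨t, ht, fun h3 => h2 (hev _ _ ?_ ?_ h3)⟩
    · rintro (s | s) hs
      · simp at hs
      · have h4 : Complex.Gamma (φ t (g s)) ≠ 0 := by
          rw [Ne, Complex.Gamma_eq_zero_iff]
          rintro ⟨m, hm⟩
          exact h1 s s.2 m hm
        change Complex.Gamma (φ t (g s)) * rg (φ t (g s)) = 1
        rw [rg]
        exact mul_inv_cancel₀ h4
    · rintro (s | s) hs
      · rfl
      · simp at hs

/-- **Thin exceptional sets.** `c = 2` is the case in which the hypothesis is known. -/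
theorem points_codim [Countable F] (m : ℕ)
    (hfull : ∀ (k : ℕ), k ≤ m + 3 → ∀ (D : Set (Fin (m + 1) → ℂ)) (f : Fin k → (Fin (m + 1) → ℂ) → ℂ),
      Germ D f → Full D f) :
    Thin m {z : Fin n → ℂ | (∀ i j, i ≠ j → ∀ p q : ℚ, z i ≠ p * z j + q) ∧
      (∃ J : Finset (Fin n), J.card = m + 3 ∧
        ∀ j ∈ J, ¬ (IsAlgebraic F (z j) ∧ IsAlgebraic F (Complex.Gamma (z j)))) ∧
      (∀ S : Finset (Fin n), S.card = m + 1 → 2 ≤ Algebra.trdeg F (IntermediateField.adjoin F
        (range (fun j : {j // j ∉ S} => z j.1) ∪ range fun j : {j // j ∉ S} => Complex.Gamma (z j.1)))) ∧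
      Algebra.trdeg F (IntermediateField.adjoin F (range z ∪ range fun i => Complex.Gamma (z i))) ≤
        ((2 * m + 3 : ℕ) : Cardinal)} := by
  classical
  obtain ⟨B, hB, hBp⟩ := arcM (F := F) (n := n) m
  refine hB.mono ?_
  rintro z ⟨hH, ⟨J, hJ3, hJ⟩, hb, htr⟩
  by_contra hz
  obtain ⟨φ, ha, hφ0, hinj, hev⟩ := hBp z hz
  obtain ⟨ε, hε, hball⟩ := Metric.eventually_nhds_iff_ball.1 (ha.eventually_analyticAt.and hev)
  set D : Set (Fin (m + 1) → ℂ) := ball 0 ε with hDdef
  have hD : IsOpen D := isOpen_ball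
  have hp : IsPreconnected D := (convex_ball _ _).isPreconnected
  have h0 : (0 : Fin (m + 1) → ℂ) ∈ D := mem_ball_self hε
  have hφa : ∀ i, AnalyticOnNhd ℂ (fun t => φ t i) D := fun i t ht => analyticAt_pi_iff.1 (hball t ht).1 i
  have hφZ : ∀ t ∈ D, φ t ∈ Zs F z := fun t ht => (hball t ht).2
  have hfd : ∀ i, fderiv ℂ (fun t => φ t i) 0 =
      (ContinuousLinearMap.proj (R := ℂ) (φ := fun _ : Fin n => ℂ) i).comp (fderiv ℂ φ 0) := by
    intro i
    exact ((hasFDerivAt_pi'.1 ha.differentiableAt.hasFDerivAt) i).fderiv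
  obtain ⟨e, he⟩ := exists_rows hinj
  set N : Finset (Fin n) := Finset.univ.filter fun i => ∃ t ∈ D, φ t i ≠ z i with hN
  have hmN : ∀ i, i ∈ N ↔ ∃ t ∈ D, φ t i ≠ z i := by
    intro i
    simp [hN]
  have hei : Function.Injective e := by
    intro x y hxy
    exact he.injective (by simp only [hxy])
  have heN : ∀ x, e x ∈ N := by
    intro x
    rw [hmN]
    by_contra hcon
    push Not at hcon
    apply he.ne_zero x
    rw [← hfd]
    have h1 : (fun t => φ t (e x)) =ᶠ[𝓝 0] fun _ => z (e x) := by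
      filter_upwards [hD.mem_nhds h0] with t ht
      exact hcon t ht
    rw [h1.fderiv_eq]
    simp
  set R : Finset (Fin n) := Finset.univ.image e with hR
  have hRc : R.card = m + 1 := by
    rw [hR, Finset.card_image_of_injective _ hei]
    simp
  have hRN : R ⊆ N := by
    intro i hi
    obtain ⟨x, -, rfl⟩ := Finset.mem_image.1 hi
    exact heN x
  have hNm : m + 1 ≤ N.card := hRc ▸ Finset.card_le_card hRN
  obtain ⟨N', hRN', hN', hNc⟩ := Finset.exists_subsuperset_card_eq (n := min N.card (m + 3)) hRN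
    (by rw [hRc]; exact le_min hNm (by omega)) (min_le_left _ _)
  set k := min N.card (m + 3) with hk
  have hk3 : k ≤ m + 3 := min_le_right _ _
  have hk1 : m + 1 ≤ k := le_min hNm (by omega)
  set g : Fin k → Fin n := fun x => N'.orderEmbOfFin hNc x with hg
  have hgN : ∀ x, g x ∈ N := fun x => hN' (Finset.orderEmbOfFin_mem _ _ _)
  have hgi : Function.Injective g := (N'.orderEmbOfFin hNc).injective
  have hgr : ∀ i ∈ N', ∃ x, g x = i := by
    intro i hi
    have h1 : i ∈ range (N'.orderEmbOfFin hNc) := by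
      rw [Finset.range_orderEmbOfFin]
      exact hi
    exact h1
  have hG : Germ D (fun x t => φ t (g x)) := by
    refine ⟨hD, hp, fun x => hφa (g x), ?_, ?_, ?_⟩
    · intro x v hv
      obtain ⟨t, ht, h1⟩ := (hmN _).1 (hgN x)
      apply h1
      have h2 : φ t (g x) = v := hv t ht
      have h3 : φ 0 (g x) = v := hv 0 h0
      rw [h2, ← h3, hφ0]
    · intro x y hxy p q hv
      have h1 : φ 0 (g x) = p * φ 0 (g y) + q := hv 0 h0
      rw [hφ0] at h1
      exact hH _ _ (fun h => hxy (hgi h)) p q h1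
    · choose e' he' using fun x => hgr (e x) (hRN' (Finset.mem_image_of_mem e (Finset.mem_univ x)))
      refine ⟨0, h0, e', ?_⟩
      have e1 : (fun x => fderiv ℂ (fun t => φ t (g (e' x))) 0) =
          fun x => (ContinuousLinearMap.proj (R := ℂ) (φ := fun _ : Fin n => ℂ) (e x)).comp (fderiv ℂ φ 0) := by
        funext x
        rw [hfd, he']
      rw [e1]
      exact he
  obtain ⟨σ, hσ, ι, hσc, hι⟩ := indep_of_fullM (hfull k hk3 D _ hG)
  -- it is enough to find constants
  have key : ∀ (τ : Type) [Fintype τ] (κ : τ → Fin n ⊕ Fin n), Fintype.card τ + k = m + 3 →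
      (∀ x, ∀ i ∈ N, κ x ≠ Sum.inl i ∧ κ x ≠ Sum.inr i) →
      (AlgebraicIndependent F fun x => en z (κ x)) → False := by
    intro τ _ κ hτ hκN hκ
    have h1 := combine hφZ hι (κ := κ) (by
      intro t ht x
      obtain ⟨i, hi⟩ : ∃ i, κ x = Sum.inl i ∨ κ x = Sum.inr i := by
        rcases κ x with i | i
        · exact ⟨i, Or.inl rfl⟩
        · exact ⟨i, Or.inr rfl⟩
      have hiN : i ∉ N := by
        intro h
        obtain ⟨h2, h3⟩ := hκN x i h
        rcases hi with hi | hi
        · exact h2 hi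
        · exact h3 hi
      have h2 : φ t i = z i := by
        by_contra h
        exact hiN ((hmN i).2 ⟨t, ht, h⟩)
      rcases hi with hi | hi
      · rw [hi]
        exact h2
      · rw [hi]
        change rg (φ t i) = rg (z i)
        rw [h2]) hκ
    have h2 := indep_le (IntermediateField.adjoin F (range z ∪ range fun i => Complex.Gamma (z i)))
      (x := fun x => en z (Sum.elim ι κ x)) (by
        intro x
        rcases Sum.elim ι κ x with i | i
        · exact IntermediateField.subset_adjoin _ _ (Or.inl ⟨i, rfl⟩)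
        · exact inv_mem (IntermediateField.subset_adjoin F _ (Or.inr ⟨i, rfl⟩))) h1
    have h3 := h2.trans htr
    rw [Fintype.card_sum, hσc] at h3
    have h4 : k + (m + 1) + Fintype.card τ ≤ 2 * m + 3 := by exact_mod_cast h3
    omega
  rcases (by omega : k = m + 3 ∨ k = m + 2 ∨ k = m + 1) with h3 | h2 | h1
  · refine key (Fin 0) Fin.elim0 (by simp [h3]) (fun x => x.elim0) ?_
    rw [algebraicIndependent_empty_type_iff]
    exact (algebraMap F ℂ).injective
  · have hNc2 : N.card = m + 2 := by omega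
    obtain ⟨j, hjJ, hjN⟩ : ∃ j ∈ J, j ∉ N := by
      by_contra hcon
      push Not at hcon
      have := Finset.card_le_card (fun j hj => hcon j hj : J ⊆ N)
      omega
    have h4 := hJ j hjJ
    rw [not_and_or] at h4
    rcases h4 with h4 | h4
    · refine key (Fin 1) (fun _ => Sum.inl j) (by rw [h2]; simp; omega) ?_ ?_
      · intro _ i hi
        refine ⟨fun h => hjN ?_, fun h => by simp at h⟩
        rw [Sum.inl_injective h]
        exact hi
      · rw [algebraicIndependent_unique_type_iff]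
        exact h4
    · refine key (Fin 1) (fun _ => Sum.inr j) (by rw [h2]; simp; omega) ?_ ?_
      · intro _ i hi
        refine ⟨fun h => by simp at h, fun h => hjN ?_⟩
        rw [Sum.inr_injective h]
        exact hi
      · rw [algebraicIndependent_unique_type_iff]
        intro h5
        apply h4
        have h6 := IsAlgebraic.inv h5
        change IsAlgebraic F ((Complex.Gamma (z j))⁻¹)⁻¹ at h6
        rwa [inv_inv] at h6
  · have hNc1 : N.card = m + 1 := by omega
    obtain ⟨τ, hτ, κ, hc, hκi, hκ⟩ := two_constM (hb N hNc1)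
    exact key τ κ (by omega) hκi hκ

end Pool.Agent.J4H69.K2.Pt
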