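import Pool.Agent.J4H69.K2.Final
import Pool.Agent.J4H69.K2.PointsM
import Pool.Agent.J4H74.AS.Slice

set_option autoImplicit false

/-!
The arithmetic consequence of the Ax–Schanuel theorem in codimension two.
-/

namespace Pool.Agent.J4H69.K2

theorem thin {F : Type} [Field F] [Algebra F ℂ] [Countable F] (n m : ℕ) :
    Pool.Agent.J4H69.AX.Thin m {z : Fin n → ℂ | (∀ i j, i ≠ j → ∀ p q : ℚ, z i ≠ p * z j + q) ∧
      (∃ J : Finset (Fin n), J.card = m + 3 ∧
        ∀ j ∈ J, ¬ (IsAlgebraic F (z j) ∧ IsAlgebraic F (Complex.Gamma (z j)))) ∧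
      (∀ S : Finset (Fin n), S.card = m + 1 → 2 ≤ Algebra.trdeg F (IntermediateField.adjoin F
        (Set.range (fun j : {j // j ∉ S} => z j.1) ∪
          Set.range fun j : {j // j ∉ S} => Complex.Gamma (z j.1)))) ∧
      Algebra.trdeg F (IntermediateField.adjoin F
        (Set.range z ∪ Set.range fun i => Complex.Gamma (z i))) ≤ ((2 * m + 3 : ℕ) : Cardinal)} :=
  Pt.points_codim m fun k hk D f hG =>
    Pool.Agent.J4H74.AS.Slice.codim (c := 2) (fun _ hk' _ _ hG' => full_three hk' le_rfl hG') m k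
      (by omega) D f hG

end Pool.Agent.J4H69.K2
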