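import Pool.Agent.J4H69.K2.Asm
import Pool.Agent.J4H74.AS.Full

set_option autoImplicit false

/-!
Project K2: from `Indep` to `Full`.
-/

namespace Pool.Agent.J4H69.K2

open Filter Topology Set Metric
open Pool.Agent.J4H69.K1
open Pool.Agent.J4H74.AS (Germ Low High Full AxL)

/-- from the reciprocal of the Gamma function to the Gamma function -/
theorem indep_gam {D : Set ℂ} {f : Fin 3 → ℂ → ℂ} (hD : IsOpen D) (hp : IsPreconnected D)
    (hf : ∀ i, AnalyticOnNhd ℂ (f i) D) (hnc : ∀ i, ∃ t ∈ D, deriv (f i) t ≠ 0)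
    {m : ℕ} {e : Fin m → Fin 3 ⊕ Fin 3} (he : Indep (rel D f) e)
    (P : MvPolynomial (Fin m) ℂ) (hP : P ≠ 0) :
    ∃ t ∈ D, (∀ i, ∀ k : ℕ, f i t ≠ -k) ∧
      MvPolynomial.eval (fun k => Sum.elim (fun i => f i t) (fun i => Complex.Gamma (f i t)) (e k)) P ≠ 0 := by
  classical
  have hne : D.Nonempty := by
    obtain ⟨t, ht, -⟩ := hnc 0
    exact ⟨t, ht⟩
  have hI := rel_prime hD hp hne hf
  obtain ⟨P', hP', hev⟩ := pinvert (fun k => (e k).isRight = true) P hP
  have h1 : MvPolynomial.rename e P' ∉ rel D f := fun h => hP' (he P' h)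
  have h2 : MvPolynomial.rename e P' * ∏ i : Fin 3, (MvPolynomial.X (Sum.inr i) : Pol) ∉ rel D f := by
    intro h
    rcases hI.mem_or_mem h with h | h
    · exact h1 h
    · obtain ⟨i, -, hi⟩ := (hI.prod_mem_iff).1 h
      exact y_notMem' hD hf (hnc i) hi
  rw [mem_rel] at h2
  push Not at h2
  obtain ⟨t, ht, h3⟩ := h2
  rw [map_mul, map_prod] at h3
  have h4 : ∀ i : Fin 3, rg (f i t) ≠ 0 := by
    intro i
    have h5 := Finset.prod_ne_zero_iff.1 (right_ne_zero_of_mul h3) i (Finset.mem_univ _)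
    rw [MvPolynomial.eval_X] at h5
    exact h5
  have h5 := left_ne_zero_of_mul h3
  refine ⟨t, ht, ?_, ?_⟩
  · intro i k hk
    apply h4 i
    rw [rg, inv_eq_zero, Complex.Gamma_eq_zero_iff]
    exact ⟨k, hk⟩
  · intro h6
    apply h5
    rw [MvPolynomial.eval_rename]
    refine hev _ _ ?_ ?_ h6
    · intro s hs
      obtain ⟨i, hi⟩ := Sum.isRight_iff.1 hs
      simp only [Function.comp_apply, hi, Sum.elim_inr, env]
      have h7 := h4 i
      rw [rg, Ne, inv_eq_zero] at h7
      rw [rg]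
      exact inv_mul_cancel₀ h7
    · intro s hs
      obtain ⟨i, hi⟩ := Sum.isLeft_iff.1 (by
        rw [Bool.not_eq_true, Sum.isRight_eq_false] at hs
        exact hs)
      simp only [Function.comp_apply, hi, Sum.elim_inl, env]

lemma indep_inj {m : ℕ} {I : Ideal Pol} {e : Fin m → Fin 3 ⊕ Fin 3} (he : Indep I e) :
    Function.Injective e := by
  intro k k' h
  have h1 := he (MvPolynomial.X k - MvPolynomial.X k') (by
    rw [map_sub, MvPolynomial.rename_X, MvPolynomial.rename_X, h, sub_self]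
    exact I.zero_mem)
  exact MvPolynomial.X_injective (sub_eq_zero.1 h1)

/-- the one-variable form of a domain -/
def D1 (D : Set (Fin 1 → ℂ)) : Set ℂ := {s | (fun _ => s) ∈ D}

/-- the one-variable form of a function -/
def f1 {n : ℕ} (f : Fin n → (Fin 1 → ℂ) → ℂ) : Fin n → ℂ → ℂ := fun i s => f i fun _ => s

lemma eta (t : Fin 1 → ℂ) : (fun _ => t 0) = t := by
  funext k
  fin_cases k
  rfl

lemma cont_const : Continuous (fun s : ℂ => (fun _ : Fin 1 => s)) := continuous_pi fun _ => continuous_id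

lemma D1_open {D : Set (Fin 1 → ℂ)} (h : IsOpen D) : IsOpen (D1 D) := h.preimage cont_const

lemma D1_pre {D : Set (Fin 1 → ℂ)} (h : IsPreconnected D) : IsPreconnected (D1 D) := by
  have e : D1 D = (fun t : Fin 1 → ℂ => t 0) '' D := by
    ext s
    constructor
    · intro hs
      exact ⟨_, hs, rfl⟩
    · rintro ⟨t, ht, rfl⟩
      change (fun _ => t 0) ∈ D
      rw [eta]
      exact ht
  rw [e]
  exact h.image _ (continuous_apply 0).continuousOn

lemma f1_an {n : ℕ} {D : Set (Fin 1 → ℂ)} {f : Fin n → (Fin 1 → ℂ) → ℂ} (h : ∀ i, AnalyticOnNhd ℂ (f i) D)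
    (i : Fin n) : AnalyticOnNhd ℂ (f1 f i) (D1 D) := by
  intro s hs
  have h1 : AnalyticAt ℂ (fun s : ℂ => (fun _ : Fin 1 => s)) s := by
    rw [analyticAt_pi_iff]
    intro _
    exact analyticAt_id
  have h2 : AnalyticAt ℂ (f i) ((fun s : ℂ => (fun _ : Fin 1 => s)) s) := h i _ hs
  exact h2.comp h1

lemma exists_D1 {D : Set (Fin 1 → ℂ)} {p : (Fin 1 → ℂ) → Prop} (h : ∃ t ∈ D, p t) :
    ∃ s ∈ D1 D, p fun _ => s := by
  obtain ⟨t, ht, h1⟩ := h
  refine ⟨t 0, ?_, ?_⟩
  · change (fun _ => t 0) ∈ D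
    rw [eta]
    exact ht
  · rw [eta]
    exact h1

/-- `Full` from four independent functions -/
theorem full_of_indep {D : Set (Fin 1 → ℂ)} {f : Fin 3 → (Fin 1 → ℂ) → ℂ} (hD : IsOpen D)
    (hp : IsPreconnected D) (hf : ∀ i, AnalyticOnNhd ℂ (f i) D)
    (hnc : ∀ i, ∃ s ∈ D1 D, deriv (f1 f i) s ≠ 0) {e : Fin 4 → Fin 3 ⊕ Fin 3}
    (he : Indep (rel (D1 D) (f1 f)) e) : Full D f := by
  classical
  set I : Finset (Fin 3) := Finset.univ.filter fun i => Sum.inl i ∈ range e with hI
  set J : Finset (Fin 3) := Finset.univ.filter fun i => Sum.inr i ∈ range e with hJ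
  have hmI : ∀ i, i ∈ I ↔ Sum.inl i ∈ range e := by
    intro i
    simp [hI]
  have hmJ : ∀ i, i ∈ J ↔ Sum.inr i ∈ range e := by
    intro i
    simp [hJ]
  have hcard : I.card + J.card = 4 := by
    rw [← Finset.card_disjSum]
    have h1 : I.disjSum J = Finset.univ.image e := by
      ext x
      rcases x with i | i
      · rw [Finset.inl_mem_disjSum, hmI, Finset.mem_image]
        constructor
        · rintro ⟨k, hk⟩
          exact ⟨k, Finset.mem_univ _, hk⟩
        · rintro ⟨k, -, hk⟩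
          exact ⟨k, hk⟩
      · rw [Finset.inr_mem_disjSum, hmJ, Finset.mem_image]
        constructor
        · rintro ⟨k, hk⟩
          exact ⟨k, Finset.mem_univ _, hk⟩
        · rintro ⟨k, -, hk⟩
          exact ⟨k, hk⟩
    rw [h1, Finset.card_image_of_injective _ (indep_inj he)]
    simp
  refine ⟨I, J, by rw [hcard], fun P hP => ?_⟩
  set val : I ⊕ J → Fin 3 ⊕ Fin 3 := Sum.map Subtype.val Subtype.val with hval
  have hvr : ∀ x, ∃ k, e k = val x := by
    rintro (⟨i, hi⟩ | ⟨i, hi⟩)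
    · exact (hmI i).1 hi
    · exact (hmJ i).1 hi
  choose k hk using hvr
  have hkinj : Function.Injective k := by
    intro x y hxy
    have h1 : val x = val y := by rw [← hk, ← hk, hxy]
    have hvi : Function.Injective val := Function.Injective.sumMap Subtype.val_injective Subtype.val_injective
    exact hvi h1
  have hP' : MvPolynomial.rename k P ≠ 0 := fun h =>
    hP ((map_eq_zero_iff _ (MvPolynomial.rename_injective _ hkinj)).1 h)
  obtain ⟨s, hs, h1, h2⟩ := indep_gam (D1_open hD) (D1_pre hp) (f1_an hf) hnc he _ hP'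
  refine ⟨fun _ => s, hs, fun j _ m => h1 j m, ?_⟩
  rw [MvPolynomial.eval_rename] at h2
  have e1 : ((fun k => Sum.elim (fun i => f1 f i s) (fun i => Complex.Gamma (f1 f i s)) (e k)) ∘ k) =
      (Sum.elim (fun i : I => f i fun _ => s) fun j : J => Complex.Gamma (f j fun _ => s)) := by
    funext x
    simp only [Function.comp_apply, hk]
    rcases x with x | x <;> rfl
  rw [e1] at h2
  exact h2

end Pool.Agent.J4H69.K2
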